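import Mathlib

/-!
# Project TH (MP_fc6b1e_nt), II.5: lattices
-/

set_option autoImplicit false
set_option linter.style.haveILetI false

namespace Pool.Agent.Helper31.TH

open Module

variable {p : ℕ} [hp : Fact p.Prime]

/-- a positive integer is a power of `p`, times a unit of `ℤ_p` -/
theorem nat_fac (n : ℕ) (hn : n ≠ 0) :
    ∃ (e : ℕ) (m : ℕ) (s : ℤ_[p]), n = p ^ e * m ∧ s * (m : ℤ_[p]) = 1 := by
  obtain ⟨e, m, hm, rfl⟩ := Nat.exists_eq_pow_mul_and_not_dvd hn p hp.out.ne_one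
  have h1 : IsUnit (m : ℤ_[p]) := by
    rw [PadicInt.isUnit_iff, PadicInt.norm_natCast_eq_one_iff]
    exact (Nat.Prime.coprime_iff_not_dvd hp.out).2 hm
  obtain ⟨s, hs⟩ := h1.exists_left_inv
  exact ⟨e, m, s, rfl, hs⟩

/-- division by an integer costs only a power of `p` -/
theorem kill_div (n : ℕ) (hn : n ≠ 0) : ∃ e : ℕ, ∀ (P : Type) [AddCommGroup P] [Module ℤ_[p] P]
    (k : ℕ) (w y : P), n • w = p ^ k • y → ∃ y' : P, p ^ e • w = p ^ k • y' := by
  obtain ⟨e, m, s, rfl, hs⟩ := nat_fac (p := p) n hn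
  refine ⟨e, fun P _ _ k w y h => ⟨s • y, ?_⟩⟩
  have h1 : p ^ e • w = s • ((p ^ e * m) • w) := by
    rw [mul_comm, mul_smul, ← Nat.cast_smul_eq_nsmul ℤ_[p] m, smul_smul, hs, one_smul]
  rw [h1, h, smul_comm]

/-- **Lattices.** `N` is a finitely generated `ℤ_p`-module, `L` a linear map to a normed space with torsion kernel. -/
theorem lat {N V : Type} [AddCommGroup N] [Module ℤ_[p] N] [Module.Finite ℤ_[p] N]
    [NormedAddCommGroup V] [NormedSpace ℚ_[p] V] (L : N →+ V)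
    (hL : ∀ (a : ℤ_[p]) (v : N), L (a • v) = (a : ℚ_[p]) • L v)
    (hker : ∀ v, L v = 0 → ∃ n : ℕ, n ≠ 0 ∧ n • v = 0) (C : ℝ) :
    ∃ B : ℕ, ∀ (k : ℕ) (v : N), ‖L v‖ ≤ C * (1 / p : ℝ) ^ k → ∃ y, p ^ B • v = p ^ k • y := by
  classical
  have hp0 : (0 : ℝ) < p := by exact_mod_cast hp.out.pos
  have hp1 : (1 : ℝ) < p := by exact_mod_cast hp.out.one_lt
  letI : Module ℤ_[p] V := Module.compHom V (algebraMap ℤ_[p] ℚ_[p])
  haveI : IsScalarTower ℤ_[p] ℚ_[p] V := IsScalarTower.of_algebraMap_smul (fun _ _ => rfl)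
  let L' : N →ₗ[ℤ_[p]] V :=
    { toFun := L
      map_add' := map_add L
      map_smul' := fun a v => hL a v }
  haveI : Module.IsTorsionFree ℤ_[p] V := Module.IsTorsionFree.trans_faithfulSMul ℤ_[p] ℚ_[p] V
  haveI : Module.Finite ℤ_[p] (LinearMap.range L') := inferInstance
  obtain ⟨n, e⟩ : Σ n, Basis (Fin n) ℤ_[p] (LinearMap.range L') :=
    Module.basisOfFiniteTypeTorsionFree'
  have hli : LinearIndependent ℚ_[p] (fun i => (e i : V)) := by
    rw [← LinearIndependent.iff_fractionRing (R := ℤ_[p])]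
    exact e.linearIndependent.map' (LinearMap.range L').subtype (Submodule.ker_subtype _)
  let Φ : (Fin n → ℚ_[p]) →ₗ[ℚ_[p]] V := Fintype.linearCombination ℚ_[p] (fun i => (e i : V))
  have hΦ : LinearMap.ker Φ = ⊥ := by
    rw [LinearMap.ker_eq_bot]
    exact linearIndependent_iff_injective_fintypeLinearCombination.1 hli
  obtain ⟨K, hK, hanti⟩ := LinearMap.exists_antilipschitzWith Φ hΦ
  -- the kernel is killed by a power of `p`
  have hkill : ∃ E : ℕ, ∀ v : N, L v = 0 → p ^ E • v = 0 := by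
    haveI : IsNoetherian ℤ_[p] N := inferInstance
    obtain ⟨s, hs⟩ := IsNoetherian.noetherian (LinearMap.ker L')
    have h1 : ∀ v : N, ∃ E : ℕ, v ∈ s → p ^ E • v = 0 := by
      intro v
      by_cases hv : v ∈ s
      · have h2 : v ∈ LinearMap.ker L' := by rw [← hs]; exact Submodule.subset_span hv
        obtain ⟨m, hm, hmv⟩ := hker v h2
        obtain ⟨E, hE⟩ := kill_div (p := p) m hm
        obtain ⟨y', hy'⟩ := hE N 0 v 0 (by rw [hmv, smul_zero])
        obtain ⟨E', m', s', hfac, hs'⟩ := nat_fac (p := p) m hm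
        refine ⟨E', fun _ => ?_⟩
        have h3 : p ^ E' • v = s' • ((p ^ E' * m') • v) := by
          rw [mul_comm, mul_smul, ← Nat.cast_smul_eq_nsmul ℤ_[p] m', smul_smul, hs', one_smul]
        rw [h3, ← hfac, hmv, smul_zero]
      · exact ⟨0, fun h => absurd h hv⟩
    choose E hE using h1
    refine ⟨s.sup E, fun v hv => ?_⟩
    have h2 : v ∈ Submodule.span ℤ_[p] (s : Set N) := by
      rw [hs]
      exact hv
    induction h2 using Submodule.span_induction with
    | mem x hx =>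
      have h3 : E x ≤ s.sup E := Finset.le_sup hx
      obtain ⟨d, hd⟩ := Nat.exists_eq_add_of_le h3
      rw [hd, pow_add, mul_comm, mul_smul, hE x hx, smul_zero]
    | zero => rw [smul_zero]
    | add x y hx hy h1 h2 =>
      have hx' : L x = 0 := by rw [hs] at hx; exact hx
      have hy' : L y = 0 := by rw [hs] at hy; exact hy
      rw [smul_add, h1 hx', h2 hy', add_zero]
    | smul a x hx h1 =>
      have hx' : L x = 0 := by rw [hs] at hx; exact hx
      rw [smul_comm, h1 hx', smul_zero]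
  obtain ⟨E, hE⟩ := hkill
  -- the first constant
  obtain ⟨B, hB⟩ : ∃ B : ℕ, K * C ≤ (p : ℝ) ^ B := by
    obtain ⟨B, hB⟩ := pow_unbounded_of_one_lt (K * C : ℝ) hp1
    exact ⟨B, hB.le⟩
  refine ⟨B + E, fun k v hv => ?_⟩
  let w : LinearMap.range L' := ⟨L' v, LinearMap.mem_range_self _ _⟩
  set a : Fin n → ℤ_[p] := fun i => e.repr w i with ha
  have hw : L v = Φ (fun i => (a i : ℚ_[p])) := by
    have h1 := e.sum_repr w
    have h2 := congrArg Subtype.val h1
    rw [Submodule.coe_sum] at h2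
    rw [Fintype.linearCombination_apply]
    exact h2.symm
  have hai : ∀ i, ‖a i‖ ≤ K * (C * (1 / p : ℝ) ^ k) := by
    intro i
    have h1 := hanti.le_mul_dist (fun i => (a i : ℚ_[p])) 0
    rw [map_zero, dist_zero_right, dist_zero_right, ← hw] at h1
    have h2 : ‖(a i : ℚ_[p])‖ ≤ ‖(fun i => (a i : ℚ_[p]))‖ :=
      norm_le_pi_norm (fun i => (a i : ℚ_[p])) i
    rw [PadicInt.norm_def]
    refine h2.trans (h1.trans ?_)
    exact mul_le_mul_of_nonneg_left hv (by positivity)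
  have hdiv : ∀ i, ∃ a' : ℤ_[p], (p : ℤ_[p]) ^ B * a i = (p : ℤ_[p]) ^ k * a' := by
    intro i
    have h1 : (p : ℤ_[p]) ^ B * a i ∈ Ideal.span {(p : ℤ_[p]) ^ k} := by
      rw [← PadicInt.norm_le_pow_iff_mem_span_pow, norm_mul, norm_pow, PadicInt.norm_p, zpow_neg,
        zpow_natCast]
      calc (p : ℝ)⁻¹ ^ B * ‖a i‖ ≤ (p : ℝ)⁻¹ ^ B * (K * (C * (1 / p : ℝ) ^ k)) :=
            mul_le_mul_of_nonneg_left (hai i) (by positivity)
        _ = ((p : ℝ)⁻¹ ^ B * (K * C)) * (1 / p : ℝ) ^ k := by ring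
        _ ≤ ((p : ℝ)⁻¹ ^ B * (p : ℝ) ^ B) * (1 / p : ℝ) ^ k := by gcongr
        _ = ((p : ℝ) ^ k)⁻¹ := by
            rw [← mul_pow, inv_mul_cancel₀ hp0.ne', one_pow, one_mul, one_div, inv_pow]
    rw [Ideal.mem_span_singleton] at h1
    exact h1
  choose a' ha' using hdiv
  have hpre : ∀ i, ∃ x : N, L x = e i := fun i => (e i).2
  choose x hx using hpre
  set y : N := ∑ i, a' i • x i with hy
  have h5 : L (p ^ B • v) = L (p ^ k • y) := by
    rw [map_nsmul, map_nsmul, hw, hy, map_sum]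
    simp only [hL, hx]
    rw [Fintype.linearCombination_apply, Finset.smul_sum, Finset.smul_sum]
    refine Finset.sum_congr rfl fun i _ => ?_
    rw [← Nat.cast_smul_eq_nsmul ℚ_[p], ← Nat.cast_smul_eq_nsmul ℚ_[p], smul_smul, smul_smul]
    congr 1
    have h6 := congrArg (fun t : ℤ_[p] => (t : ℚ_[p])) (ha' i)
    push_cast at h6 ⊢
    exact h6
  have h7 : L (p ^ B • v - p ^ k • y) = 0 := by rw [map_sub, h5, sub_self]
  have h8 := hE _ h7
  rw [smul_sub, sub_eq_zero] at h8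
  refine ⟨p ^ E • y, ?_⟩
  rw [pow_add, mul_comm, mul_smul, h8, smul_comm]

end Pool.Agent.Helper31.TH
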