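import Pool.Agent.Helper31.TH.Fld
import Pool.Agent.Helper31.TH.Lat

/-!
# Project TH (MP_fc6b1e_nt), II.5: eigenvectors in `O ⊗ E_F` with small logarithms
-/

set_option autoImplicit false
set_option linter.unusedSectionVars false
set_option linter.style.haveILetI false

namespace Pool.Agent.Helper31.TH

open TensorProduct NumberField Module IsDedekindDomain Pool.Agent.Helper51.SigLeo
open Pool.Agent.Helper51.RP Pool.Agent.Helper17.TH

variable {p : ℕ} [hp : Fact p.Prime] {O : Type} [CommRing O]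

section tm

variable {k : Type} [NormedField k] (j : O →+* k) {A : Type} [AddCommGroup A]

theorem tm_ext (f : A →+ A) (z : O ⊗[ℤ] A) : tm j A (ext O f z) = extEnd f (tm j A z) := by
  induction z using TensorProduct.induction_on with
  | zero => simp
  | tmul o a => rfl
  | add x y hx hy => simp only [map_add, hx, hy]

theorem tm_smul (o : O) (z : O ⊗[ℤ] A) : tm j A (o • z) = j o • tm j A z := by
  induction z using TensorProduct.induction_on with
  | zero => simp
  | tmul o' a =>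
    have h1 : ∀ o a, tm j A (o ⊗ₜ[ℤ] a) = j o ⊗ₜ[ℤ] a := fun _ _ => rfl
    rw [TensorProduct.smul_tmul', h1, h1, TensorProduct.smul_tmul', smul_eq_mul, map_mul, smul_eq_mul]
  | add x y hx hy => simp only [smul_add, map_add, hx, hy]

end tm

/-- coordinates in a finitely generated abelian group -/
theorem fg_crd (A : Type) [AddCommGroup A] [Module.Finite ℤ A] :
    ∃ (n : ℕ) (f : Fin n → (A →+ ℤ)) (e : Fin n → A) (t : ℕ), t ≠ 0 ∧
      ∀ a, t • a = ∑ l, f l a • (t • e l) := by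
  classical
  haveI : AddGroup.FG A := Module.Finite.iff_addGroup_fg.1 inferInstance
  obtain ⟨n, ι, hι, q, hq, r, ⟨φ⟩⟩ := AddCommGroup.equiv_free_prod_directSum_zmod A
  set t : ℕ := ∏ i, q i ^ r i with ht
  have ht0 : t ≠ 0 := by
    rw [ht, Finset.prod_ne_zero_iff]
    intro i _
    exact pow_ne_zero _ (hq i).ne_zero
  have hkill : ∀ x : DirectSum ι (fun i => ZMod (q i ^ r i)), t • x = 0 := by
    intro x
    apply DFinsupp.ext
    intro i
    have h1 : (t • x) i = t • (x i) := rfl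
    rw [h1, nsmul_eq_mul]
    have h2 : ((t : ℕ) : ZMod (q i ^ r i)) = 0 := by
      rw [ZMod.natCast_eq_zero_iff]
      exact Finset.dvd_prod_of_mem _ (Finset.mem_univ i)
    rw [h2, zero_mul]
    rfl
  refine ⟨n, fun l => (Finsupp.applyAddHom l).comp ((AddMonoidHom.fst _ _).comp φ.toAddMonoidHom),
    fun l => φ.symm (Finsupp.single l 1, 0), t, ht0, fun a => ?_⟩
  apply φ.injective
  rw [map_nsmul, map_sum]
  simp only [map_zsmul, map_nsmul, AddEquiv.apply_symm_apply]
  apply Prod.ext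
  · rw [Prod.fst_sum]
    simp only [Prod.smul_fst]
    apply Finsupp.ext
    intro i
    rw [Finsupp.finsetSum_apply]
    simp only [Finsupp.smul_apply, Finsupp.single_apply]
    simp [Finset.sum_ite_eq', mul_comm]
  · rw [Prod.snd_sum]
    simp only [Prod.smul_snd, smul_zero, Finset.sum_const_zero]
    exact hkill _

/-- the kernel of `O ⊗ A → ℂ_p ⊗ A` is torsion -/
theorem tor_of_tm (j : O →+* ℂ_[p]) (hj : Function.Injective j) (A : Type) [AddCommGroup A]
    [Module.Finite ℤ A] :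
    ∃ t : ℕ, t ≠ 0 ∧ ∀ v : O ⊗[ℤ] A, tm j A v = 0 → t • v = 0 := by
  obtain ⟨n, f, e, t, ht0, ht⟩ := fg_crd A
  refine ⟨t, ht0, fun v h => ?_⟩
  set cO : Fin n → (A →+ O) := fun l => (Int.castRingHom O : ℤ →+ O).comp (f l) with hcO
  have h1 : ∀ v : O ⊗[ℤ] A, t • v = ∑ l, lft (cO l) v ⊗ₜ[ℤ] (t • e l) := by
    intro v
    induction v using TensorProduct.induction_on with
    | zero => simp
    | tmul o a =>
      rw [← TensorProduct.tmul_smul, ht, TensorProduct.tmul_sum]
      refine Finset.sum_congr rfl fun l _ => ?_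
      rw [lft_tmul, ← TensorProduct.smul_tmul (f l a) o]
      congr 1
      rw [zsmul_eq_mul, mul_comm]
      rfl
    | add x y hx hy =>
      rw [smul_add, hx, hy, ← Finset.sum_add_distrib]
      refine Finset.sum_congr rfl fun l _ => ?_
      rw [map_add, TensorProduct.add_tmul]
  have h2 : ∀ l, lft (cO l) v = 0 := by
    intro l
    apply hj
    rw [← ev_lft, map_zero]
    unfold ev
    rw [h, map_zero]
  rw [h1]
  simp [h2]

variable [Algebra ℤ_[p] O] (j : O →+* ℂ_[p])
  (hja : ∀ x : ℤ_[p], j (algebraMap ℤ_[p] O x) = algebraMap ℚ_[p] ℂ_[p] x)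

include hja in
theorem ev_smulZ {A : Type} [AddCommGroup A] (f : A →+ ℂ_[p]) (a : ℤ_[p]) (z : O ⊗[ℤ] A) :
    ev j f (a • z) = (a : ℚ_[p]) • ev j f z := by
  rw [← algebraMap_smul O a z, ev_smul, hja, Algebra.smul_def]

include hja in
/-- **eigenvectors with small logarithms** -/
theorem leo_bd [Module.Finite ℤ_[p] O] (hj : Function.Injective j) (Lg : IwasawaLog p ℂ_[p])
    (K F : Type) [Field K] [Field F] [NumberField F] [Algebra K F] (T : Set (F →+* ℂ_[p]))
    (c : (F ≃ₐ[K] F) → O)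
    (hleo : ∀ v : ℂ_[p] ⊗[ℤ] Additive (𝓞 F)ˣ, (∀ h : F ≃ₐ[K] F, extEnd (unitsHom h) v = j (c h) • v) →
      (∀ τ ∈ T, extHom (logUnits Lg τ) v = 0) → v = 0) (C : ℝ) :
    ∃ B : ℕ, ∀ (k : ℕ) (v : O ⊗[ℤ] Additive (𝓞 F)ˣ), (∀ h : F ≃ₐ[K] F, ext O (unitsHom h) v = c h • v) →
      (∀ τ ∈ T, ‖ev j (logUnits Lg τ) v‖ ≤ C * (1 / p : ℝ) ^ k) → p ^ B • v ∈ pw (O ⊗[ℤ] Additive (𝓞 F)ˣ) p k := by
  classical
  have hp0 : (0 : ℝ) < p := by exact_mod_cast hp.out.pos
  let N : Submodule ℤ_[p] (O ⊗[ℤ] Additive (𝓞 F)ˣ) :=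
    { carrier := {v | ∀ h : F ≃ₐ[K] F, ext O (unitsHom h) v = c h • v}
      zero_mem' := fun h => by rw [map_zero, smul_zero]
      add_mem' := fun {x y} hx hy h => by rw [map_add, hx h, hy h, smul_add]
      smul_mem' := fun a x hx h => by
        rw [← algebraMap_smul O a x, map_smul, hx h, smul_comm] }
  haveI : Module.Finite O (O ⊗[ℤ] Additive (𝓞 F)ˣ) := inferInstance
  haveI : Module.Finite ℤ_[p] (O ⊗[ℤ] Additive (𝓞 F)ˣ) := Module.Finite.trans O _
  haveI : IsNoetherian ℤ_[p] (O ⊗[ℤ] Additive (𝓞 F)ˣ) := inferInstance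
  haveI : Module.Finite ℤ_[p] N := inferInstance
  let L : N →+ ((F →+* ℂ_[p]) → ℂ_[p]) :=
    { toFun := fun v τ => if τ ∈ T then ev j (logUnits Lg τ) v.1 else 0
      map_zero' := by
        funext τ
        simp only [Pi.zero_apply]
        split_ifs
        · exact ev_zero _ _
        · rfl
      map_add' := fun v w => by
        funext τ
        simp only [Pi.add_apply]
        split_ifs
        · exact ev_add _ _ _ _
        · rw [add_zero] }
  have hLa : ∀ v : N, ∀ τ, L v τ = if τ ∈ T then ev j (logUnits Lg τ) v.1 else 0 := fun _ _ => rfl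
  obtain ⟨t, ht0, ht⟩ := tor_of_tm j hj (Additive (𝓞 F)ˣ)
  have hL1 : ∀ (a : ℤ_[p]) (v : N), L (a • v) = (a : ℚ_[p]) • L v := by
    intro a v
    funext τ
    rw [Pi.smul_apply, hLa, hLa]
    split_ifs
    · exact ev_smulZ j hja _ _ _
    · rw [smul_zero]
  have hL2 : ∀ v : N, L v = 0 → ∃ n : ℕ, n ≠ 0 ∧ n • v = 0 := by
    intro v hv
    refine ⟨t, ht0, ?_⟩
    have h1 : tm j (Additive (𝓞 F)ˣ) v.1 = 0 := by
      apply hleo
      · intro h
        rw [← tm_ext, ← tm_smul, v.2 h]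
      · intro τ hτ
        have h2 := congrFun hv τ
        rw [hLa, if_pos hτ] at h2
        exact h2
    apply Subtype.ext
    exact ht v.1 h1
  obtain ⟨B, hB⟩ := lat L hL1 hL2 (max C 0)
  refine ⟨B, fun k v hv hlog => ?_⟩
  have h3 : ‖L ⟨v, hv⟩‖ ≤ max C 0 * (1 / p : ℝ) ^ k := by
    have h0 : 0 ≤ max C 0 * (1 / p : ℝ) ^ k := mul_nonneg (le_max_right _ _) (by positivity)
    rw [pi_norm_le_iff_of_nonneg h0]
    intro τ
    rw [hLa]
    split_ifs with hτ
    · exact (hlog τ hτ).trans (mul_le_mul_of_nonneg_right (le_max_left _ _) (by positivity))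
    · rw [norm_zero]
      exact h0
  obtain ⟨y, hy⟩ := hB k ⟨v, hv⟩ h3
  rw [mem_pw]
  exact ⟨y.1, congrArg Subtype.val hy⟩

end Pool.Agent.Helper31.TH
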