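import Pool.Agent.Helper31.TH.Appr
import Pool.Agent.Helper31.TH.Leo
import Pool.Agent.Helper79.RP.HIL1

/-!
# Project TH (MP_fc6b1e_nt), II.5: the exponent of the approximate eigenvectors
-/

set_option autoImplicit false
set_option linter.unusedSectionVars false
set_option linter.style.haveILetI false

namespace Pool.Agent.Helper31.TH

open TensorProduct NumberField Module IsDedekindDomain Filter Topology Pool.Agent.Helper51.SigLeo
open Pool.Agent.Helper51.RP Pool.Agent.Helper17.TH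

variable {p : ℕ} [hp : Fact p.Prime]

/-- `loc_bound` with a constant uniform in the embedding -/
theorem loc_all (L : IwasawaLog p ℂ_[p]) (F : Type) [Field F] [NumberField F] :
    ∃ C : ℝ, 0 < C ∧ ∀ (τ : F →+* ℂ_[p]) (M : Type) [Field M] [NumberField M] [Algebra F M]
      [IsGalois F M],
      IsCyclic (M ≃ₐ[F] M) → (∃ l : ℕ, finrank F M = p ^ l) →
      ∀ σ : M →+* ℂ_[p], σ.comp (algebraMap F M) = τ →
      ∀ (k c : ℕ) (x : Fˣ) (u y : ℕ → Mˣ), (∀ N, ‖σ (u N : M)‖ = 1) →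
        (∀ N, (u N : M) ^ p ^ c = algebraMap F M (x : F) * (y N : M) ^ p ^ k) →
        (∀ g : M ≃ₐ[F] M, Tendsto (fun N => L.toFun (Units.map ((σ.comp (g : M →+* M) : M →+* ℂ_[p]) :
          M →* ℂ_[p]) (u N))) atTop (𝓝 0)) →
        ‖L.toFun (Units.map (τ : F →* ℂ_[p]) x)‖ ≤ C * (1 / p : ℝ) ^ k := by
  classical
  have hp0 : (0 : ℝ) < p := by exact_mod_cast hp.out.pos
  choose C hC h using fun τ : F →+* ℂ_[p] => loc_bound L τ
  refine ⟨1 + ∑ τ, C τ, by have := Finset.sum_nonneg fun τ (_ : τ ∈ Finset.univ) => (hC τ).le; linarith,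
    ?_⟩
  intro τ M _ _ _ _ h1 h2 σ h3 k c x u y h4 h5 h6
  refine (h τ M h1 h2 σ h3 k c x u y h4 h5 h6).trans ?_
  refine mul_le_mul_of_nonneg_right ?_ (by positivity)
  have h7 : C τ ≤ ∑ τ, C τ := Finset.single_le_sum (fun τ _ => (hC τ).le) (Finset.mem_univ τ)
  linarith

/-- the logarithms are bounded on the local fields -/
theorem log_all (L : IwasawaLog p ℂ_[p]) (F : Type) [Field F] [NumberField F] :
    ∃ C : ℝ, 0 < C ∧ ∀ (τ : F →+* ℂ_[p]) (x : Additive Fˣ), ‖lF L τ x‖ ≤ C := by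
  classical
  have h : ∀ τ : F →+* ℂ_[p], ∃ C : ℝ, 0 < C ∧ ∀ x : Additive Fˣ, ‖lF L τ x‖ ≤ C := by
    intro τ
    obtain ⟨𝓕₀, hfd₀, h₀, hd₀, -⟩ := Pool.Agent.Helper53.PW.l_clo p ℂ_[p] F τ
    obtain ⟨C₀, hC₀, hlog⟩ := log_bdd L 𝓕₀
    refine ⟨C₀, hC₀, fun x => hlog _ ?_⟩
    exact h₀ _
  choose C hC h using h
  refine ⟨1 + ∑ τ, C τ, by have := Finset.sum_nonneg fun τ (_ : τ ∈ Finset.univ) => (hC τ).le; linarith,
    ?_⟩
  intro τ x
  refine (h τ x).trans ?_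
  have h7 : C τ ≤ ∑ τ, C τ := Finset.single_le_sum (fun τ _ => (hC τ).le) (Finset.mem_univ τ)
  linarith

/-- the roots of unity of `p`-power order of `F` -/
theorem rou_F (L : IwasawaLog p ℂ_[p]) (F : Type) [Field F] [NumberField F] :
    ∃ c : ℕ, ∀ (ξ : F) (n : ℕ), ξ ^ p ^ n = 1 → ξ ^ p ^ c = 1 := by
  obtain ⟨τ⟩ : Nonempty (F →+* ℂ_[p]) := inferInstance
  obtain ⟨𝓕₀, hfd₀, h₀, hd₀, -⟩ := Pool.Agent.Helper53.PW.l_clo p ℂ_[p] F τ
  obtain ⟨c, hc⟩ := rou_bdd L 𝓕₀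
  refine ⟨c, fun ξ n h => ?_⟩
  apply τ.injective
  rw [map_pow, map_one]
  apply hc (τ ξ) n (h₀ ξ)
  rw [← map_pow, h, map_one]

/-- a vector of `O ⊗ A` is divisible by `p^k` up to `p^c` if its image is divisible by `p^k` -/
theorem ext_sat' {O : Type} [CommRing O] [Algebra ℤ_[p] O] {ι : Type} [Fintype ι]
    (b : Module.Basis ι ℤ_[p] O) {A B : Type} [AddCommGroup A] [AddCommGroup B] (f : A →+ B) (k c : ℕ)
    (hf : ∀ a : A, f a ∈ pw B p k → p ^ c • a ∈ pw A p k)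
    (z : O ⊗[ℤ] A) (h : ext O f z ∈ pw (O ⊗[ℤ] B) p k) : p ^ c • z ∈ pw (O ⊗[ℤ] A) p k := by
  obtain ⟨a, y, hz⟩ := repr_mod b k z
  rw [mem_pw] at h
  obtain ⟨y', hy'⟩ := h
  rw [hz, map_add, map_sum, map_nsmul] at hy'
  simp only [ext_tmul] at hy'
  have h1 : ∑ i, b i ⊗ₜ[ℤ] f (a i) = p ^ k • (y' - ext O f y) := by
    rw [smul_sub, ← hy']; abel
  choose a' ha' using fun j => (mem_pw _ _).1 (hf (a j) ((mem_pw _ _).2 (div_mod b k _ _ h1 j)))
  rw [mem_pw]
  refine ⟨(∑ i, b i ⊗ₜ[ℤ] a' i) + p ^ c • y, ?_⟩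
  rw [hz, smul_add, smul_add, Finset.smul_sum, Finset.smul_sum, smul_comm (p ^ c) (p ^ k) y]
  congr 1
  refine Finset.sum_congr rfl fun i _ => ?_
  rw [← TensorProduct.tmul_smul, ha' i, TensorProduct.tmul_smul]

section step

variable {K F M : Type} [Field K] [Field F] [NumberField F] [Field M] [NumberField M]
  [Algebra K F] [Algebra F M] [Algebra K M] [IsScalarTower K F M] [IsGalois F M]

/-- from units of `M` to elements of `F` -/
theorem st1 (L : IwasawaLog p ℂ_[p]) {C : ℝ} {T : Set (K →+* ℂ_[p])}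
    (hC : ∀ (τ : F →+* ℂ_[p]) (M : Type) [Field M] [NumberField M] [Algebra F M]
      [IsGalois F M],
      IsCyclic (M ≃ₐ[F] M) → (∃ l : ℕ, finrank F M = p ^ l) →
      ∀ σ : M →+* ℂ_[p], σ.comp (algebraMap F M) = τ →
      ∀ (k c : ℕ) (x : Fˣ) (u y : ℕ → Mˣ), (∀ N, ‖σ (u N : M)‖ = 1) →
        (∀ N, (u N : M) ^ p ^ c = algebraMap F M (x : F) * (y N : M) ^ p ^ k) →
        (∀ g : M ≃ₐ[F] M, Tendsto (fun N => L.toFun (Units.map ((σ.comp (g : M →+* M) : M →+* ℂ_[p]) :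
          M →* ℂ_[p]) (u N))) atTop (𝓝 0)) →
        ‖L.toFun (Units.map (τ : F →* ℂ_[p]) x)‖ ≤ C * (1 / p : ℝ) ^ k)
    (g : M ≃ₐ[F] M) (hg : ∀ x, x ∈ Subgroup.zpowers g) (hdeg : ∃ l : ℕ, finrank F M = p ^ l) (c : ℕ)
    (hc : ∀ (ξ : F) (n : ℕ), ξ ^ p ^ n = 1 → ξ ^ p ^ c = 1) (k : ℕ) (ε : Additive (𝓞 M)ˣ)
    (hε : ∃ u, unitsHom g ε - ε = p ^ k • u) (v : ℕ → Additive (𝓞 M)ˣ)
    (hv : ∀ τ ∈ (above T : Set (M →+* ℂ_[p])),
      Tendsto (fun N => logUnits L τ (ε + p ^ k • v N)) atTop (𝓝 0)) :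
    ∃ (x : Additive Fˣ) (w : Additive Mˣ),
      p ^ c • au M ε = ag (algebraMap F M) x + p ^ k • w ∧
      ∀ τ ∈ (above T : Set (F →+* ℂ_[p])), ‖lF L τ x‖ ≤ C * (1 / p : ℝ) ^ k := by
  obtain ⟨u, hu⟩ := hε
  have h1 : g (uF ε.toMul : M) = (uF ε.toMul : M) * (uF u.toMul : M) ^ p ^ k := by
    have h2 : unitsHom g ε = ε + p ^ k • u := by rw [← hu]; abel
    have h3 := congrArg (fun t : Additive (𝓞 M)ˣ => ((uF t.toMul : Mˣ) : M)) h2
    rw [toMul_add, toMul_nsmul, uF_mul, uF_pow] at h3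
    exact h3
  obtain ⟨x, w, hxw⟩ := h90a p g hg c hc k (uF ε.toMul) (uF u.toMul) h1
  refine ⟨Additive.ofMul x, Additive.ofMul w, ?_, ?_⟩
  · apply Additive.toMul.injective
    apply Units.ext
    exact hxw
  · intro τ hτ
    letI := τ.toAlgebra
    let σ' : M →ₐ[F] ℂ_[p] := IsAlgClosed.lift
    let σ : M →+* ℂ_[p] := σ'
    have hσ : σ.comp (algebraMap F M) = τ := σ'.comp_algebraMap
    refine hC τ M ⟨g, hg⟩ hdeg σ hσ k c x (fun N => uF (ε + p ^ k • v N).toMul)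
      (fun N => w * uF (v N).toMul ^ p ^ c) ?_ ?_ ?_
    · intro N
      exact Pool.Agent.Helper79.RP.norm_unit (p := p) σ _
    · intro N
      have h6 : (uF (ε + p ^ k • v N).toMul : Mˣ) = uF ε.toMul * uF (v N).toMul ^ p ^ k := by
        rw [toMul_add, toMul_nsmul, uF_mul, uF_pow]
      rw [h6, Units.val_mul, Units.val_pow_eq_pow_val, mul_pow, hxw, Units.val_mul,
        Units.val_pow_eq_pow_val]
      ring
    · intro h
      have h5 : σ.comp (h : M →+* M) ∈ (above T : Set (M →+* ℂ_[p])) := by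
        change (σ.comp (h : M →+* M)).comp (algebraMap K M) ∈ T
        have h6 : (σ.comp (h : M →+* M)).comp (algebraMap K M) = τ.comp (algebraMap K F) := by
          rw [← hσ, IsScalarTower.algebraMap_eq K F M]
          apply RingHom.ext
          intro y
          change σ (h (algebraMap F M (algebraMap K F y))) = σ (algebraMap F M (algebraMap K F y))
          rw [h.commutes]
        rw [h6]
        exact hτ
      exact hv _ h5

end step

/-- the elements of `O` are bounded in `ℂ_p` -/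
theorem O_bdd {O : Type} [CommRing O] [Algebra ℤ_[p] O] {ι : Type} [Fintype ι]
    (b : Module.Basis ι ℤ_[p] O) (j : O →+* ℂ_[p])
    (hja : ∀ x : ℤ_[p], j (algebraMap ℤ_[p] O x) = algebraMap ℚ_[p] ℂ_[p] x) :
    ∃ D : ℝ, 0 < D ∧ ∀ o, ‖j o‖ ≤ D := by
  refine ⟨1 + ∑ i, ‖j (b i)‖, by positivity, fun o => ?_⟩
  rw [← b.sum_repr o, map_sum]
  refine IsUltrametricDist.norm_sum_le_of_forall_le_of_nonneg (by positivity) ?_
  intro i _
  rw [Algebra.smul_def, map_mul, hja, norm_mul, norm_algebraMap', ← PadicInt.norm_def]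
  have h1 : ‖j (b i)‖ ≤ ∑ i, ‖j (b i)‖ :=
    Finset.single_le_sum (f := fun i => ‖j (b i)‖) (fun i _ => norm_nonneg _) (Finset.mem_univ i)
  calc ‖b.repr o i‖ * ‖j (b i)‖ ≤ 1 * ‖j (b i)‖ :=
        mul_le_mul_of_nonneg_right (PadicInt.norm_le_one _) (norm_nonneg _)
    _ ≤ _ := by rw [one_mul]; linarith

theorem above_closed {K M : Type} [Field K] [Field M] [Algebra K M] {T : Set (K →+* ℂ_[p])}
    (hT : PlaceClosed T) : PlaceClosed (above T : Set (M →+* ℂ_[p])) := by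
  intro σ τ h
  exact hT _ _ fun x => h (algebraMap K M x)

/-- compatibility of the projector with homomorphisms -/
theorem pj_map {O : Type} [CommRing O] {A B : Type} [AddCommGroup A] [AddCommGroup B] {G : Type}
    [Group G] [Fintype G] (act : G → (A →+ A)) (act' : G → (B →+ B)) (f : A →+ B)
    (h : ∀ g, f.comp (act g) = (act' g).comp f) (c : G →* O) (z : O ⊗[ℤ] A) :
    ext O f (pj act c z) = pj act' c (ext O f z) := by
  unfold pj
  rw [map_sum]
  refine Finset.sum_congr rfl fun g _ => ?_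
  rw [map_smul, ← ext_comp, h, ext_comp]

section main

variable {K F : Type} [Field K] [NumberField K] [Field F] [NumberField F] [Algebra K F] [IsGalois K F]
  {O : Type} [CommRing O] [IsDomain O] [Algebra ℤ_[p] O] [Module.Finite ℤ_[p] O]
  [Module.Free ℤ_[p] O] (j : O →+* ℂ_[p]) (hj : Function.Injective j)
  (hja : ∀ x : ℤ_[p], j (algebraMap ℤ_[p] O x) = algebraMap ℚ_[p] ℂ_[p] x)
  (Lg : IwasawaLog p ℂ_[p]) (T : Set (K →+* ℂ_[p])) (hT : PlaceClosed T)
  (c : (F ≃ₐ[K] F) →* O)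
  (hleo : ∀ v : ℂ_[p] ⊗[ℤ] Additive (𝓞 F)ˣ, (∀ h : F ≃ₐ[K] F, extEnd (unitsHom h) v = j (c h) • v) →
      (∀ τ ∈ (above T : Set (F →+* ℂ_[p])), extHom (logUnits Lg τ) v = 0) → v = 0)

include hj hja hT hleo in
/-- **II.5**, generic form. -/
theorem exp_gen : ∃ B : ℕ, ∀ (M : Type) [Field M] [NumberField M] [Algebra F M] [Algebra K M]
    [IsScalarTower K F M] [IsGalois F M] (_ : ∃ l : ℕ, finrank F M = p ^ l)
    (g : M ≃ₐ[F] M) (_ : ∀ x, x ∈ Subgroup.zpowers g)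
    (_ : ∀ w : HeightOneSpectrum (𝓞 F),
      (∃ W : HeightOneSpectrum (𝓞 M), ∀ x, ordv W (algebraMap F M x) = ordv w x) ∨
        ∃ h : F ≃ₐ[K] F, (∀ x, ordv w (h x) = ordv w x) ∧ c h ≠ 1)
    (k : ℕ) (z : O ⊗[ℤ] Additive (𝓞 M)ˣ)
    (_ : ∀ τ ∈ (above T : Set (M →+* ℂ_[p])), ev j (logUnits Lg τ) z = 0)
    (_ : Cg p k (ext O (unitsHom g) z) z)
    (_ : ∀ h : F ≃ₐ[K] F, ∃ h' : M ≃ₐ[K] M, (∀ x, h' (algebraMap F M x) = algebraMap F M (h x)) ∧
      Cg p k (ext O (unitsHom h') z) (c h • z)),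
    p ^ B • z ∈ pw (O ⊗[ℤ] Additive (𝓞 M)ˣ) p k := by
  classical
  have hp0 : (0 : ℝ) < p := by exact_mod_cast hp.out.pos
  haveI : FiniteDimensional K F := Module.Finite.of_restrictScalars_finite ℚ K F
  let b := Module.Free.chooseBasis ℤ_[p] O
  obtain ⟨C, hC0, hC⟩ := loc_all Lg F
  obtain ⟨C₁, hC₁0, hC₁⟩ := log_all Lg F
  obtain ⟨c₀, hc₀⟩ := rou_F Lg F
  obtain ⟨D, hD0, hD⟩ := O_bdd b j hja
  obtain ⟨hF, hF0, hcls⟩ := cls_O b F
  set n : ℕ := Fintype.card (F ≃ₐ[K] F) with hn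
  have hn0 : n ≠ 0 := Fintype.card_ne_zero
  set C₂ : ℝ := D * (D * C) + D * C₁ with hC₂
  obtain ⟨C₃, hC₃⟩ := leo_bd j hja hj Lg K F (above T) c hleo C₂
  obtain ⟨B, hB⟩ := kill_div (p := p) (p ^ C₃ * hF * n * n * p ^ c₀ * p ^ c₀)
    (by
      have := hp.out.ne_zero
      positivity)
  refine ⟨B, ?_⟩
  intro M _ _ _ _ _ _ hdeg g hg hram k z hlog hz₀ hz
  -- the units and the elements of `F`
  obtain ⟨ε, hzε, hεv⟩ := appr b j hj hja Lg M (above T) (above_closed hT) z hlog k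
  have hεg : ∀ i, ∃ u, unitsHom g (ε i) - ε i = p ^ k • u := by
    have h1 : Cg p k (ext O (unitsHom g) (∑ i, b i ⊗ₜ[ℤ] ε i)) (∑ i, b i ⊗ₜ[ℤ] ε i) :=
      ((hzε.map (ext O (unitsHom g)).toAddMonoidHom).symm.trans hz₀).trans hzε
    unfold Cg at h1
    rw [mem_pw] at h1
    obtain ⟨y, hy⟩ := h1
    rw [map_sum] at hy
    simp only [ext_tmul] at hy
    rw [← Finset.sum_sub_distrib] at hy
    simp only [← TensorProduct.tmul_sub] at hy
    exact fun i => div_mod b k _ _ hy i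
  choose v hv using hεv
  choose x yM hxw hxlog using fun i => st1 Lg hC g hg hdeg c₀ hc₀ k (ε i) (hεg i) (v i) (hv i)
  set X : O ⊗[ℤ] Additive Fˣ := ∑ i, b i ⊗ₜ[ℤ] x i with hX
  set zM : O ⊗[ℤ] Additive Mˣ := ext O (au M) z with hzM
  set α := ag (algebraMap F M) with hα
  -- (A)
  have hA : Cg p k (p ^ c₀ • zM) (ext O α X) := by
    have h1 : Cg p k zM (∑ i, b i ⊗ₜ[ℤ] au M (ε i)) := by
      have h2 := hzε.map (ext O (au M)).toAddMonoidHom
      have h3 : (ext O (au M)).toAddMonoidHom (∑ i, b i ⊗ₜ[ℤ] ε i) = ∑ i, b i ⊗ₜ[ℤ] au M (ε i) :=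
        map_sum (ext O (au M)) _ _
      rw [h3] at h2
      exact h2
    refine (h1.nsmul (p ^ c₀)).trans ?_
    rw [hX, map_sum, Finset.smul_sum]
    refine Cg.sum _ fun i _ => ?_
    rw [ext_tmul, ← TensorProduct.tmul_smul, hxw i, TensorProduct.tmul_add, TensorProduct.tmul_smul]
    unfold Cg
    rw [add_sub_cancel_left]
    exact pw_self _ _
  -- (B)
  have hBb : ∀ h : F ≃ₐ[K] F, Cg p k (ext O (ag (h : F →+* F)) (p ^ c₀ • X)) (c h • (p ^ c₀ • X)) := by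
    intro h
    obtain ⟨h', hh', hz'⟩ := hz h
    have h1 : ext O α (ext O (ag (h : F →+* F)) X) = ext O (ag (h' : M →+* M)) (ext O α X) := by
      rw [← ext_comp, ← ext_comp]
      have h2 : α.comp (ag (h : F →+* F)) = (ag (h' : M →+* M)).comp α := by
        apply AddMonoidHom.ext
        intro y
        apply Additive.toMul.injective
        apply Units.ext
        exact (hh' _).symm
      rw [h2]
    have h2 : Cg p k (ext O (ag (h' : M →+* M)) zM) (c h • zM) := by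
      have h3 := hz'.map (ext O (au M)).toAddMonoidHom
      have h4 : (ext O (au M)).toAddMonoidHom (ext O (unitsHom h') z) =
          ext O (ag (h' : M →+* M)) zM := by
        change ext O (au M) (ext O (unitsHom h') z) = _
        rw [← ext_comp, au_unitsHom, ext_comp]
      have h5 : (ext O (au M)).toAddMonoidHom (c h • z) = c h • zM := map_smul (ext O (au M)) _ _
      rw [h4, h5] at h3
      exact h3
    have h3 : Cg p k (ext O α (ext O (ag (h : F →+* F)) X)) (ext O α (c h • X)) := by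
      rw [h1, map_smul]
      have h4 := hA.map (ext O (ag (h' : M →+* M))).toAddMonoidHom
      have h5 : (ext O (ag (h' : M →+* M))).toAddMonoidHom (p ^ c₀ • zM) =
          p ^ c₀ • ext O (ag (h' : M →+* M)) zM := map_nsmul (ext O (ag (h' : M →+* M))) _ _
      rw [h5] at h4
      refine h4.symm.trans ((h2.nsmul (p ^ c₀)).trans ?_)
      rw [smul_comm]
      exact hA.smul (c h)
    unfold Cg at h3 ⊢
    rw [← map_sub] at h3
    have h6 := ext_sat' b α k c₀ (fun a ha => by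
      rw [mem_pw] at ha ⊢
      obtain ⟨w, hw⟩ := ha
      obtain ⟨y', hy'⟩ := h90b p hp.out.pos g hg c₀ hc₀ k a.toMul w.toMul
        (congrArg (fun t : Additive Mˣ => ((t.toMul : Mˣ) : M)) hw)
      exact ⟨Additive.ofMul y', congrArg Additive.ofMul hy'⟩) _ h3
    rw [smul_sub, ← map_nsmul, smul_comm] at h6
    exact h6
  -- (C)
  set x1 : O ⊗[ℤ] Additive Fˣ := p ^ c₀ • X with hx1
  set x2 : O ⊗[ℤ] Additive Fˣ := pj (fun h : F ≃ₐ[K] F => ag (h : F →+* F)) c x1 with hx2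
  have hx2e : ∀ h : F ≃ₐ[K] F, ext O (ag (h : F →+* F)) x2 = c h • x2 := fun h =>
    pj_eig (fun h : F ≃ₐ[K] F => ag (h : F →+* F)) (fun _ _ => rfl) c h x1
  have hx2c : Cg p k x2 (n • x1) := pj_cg (fun h : F ≃ₐ[K] F => ag (h : F →+* F)) c x1 hBb
  -- (D)
  have hval : ∀ w : HeightOneSpectrum (𝓞 F), ∃ o : O, lft (oO O w) x2 = p ^ k • o := by
    intro w
    rcases hram w with ⟨W, hW⟩ | ⟨h, hh, hch⟩
    · have h1 : ∀ i, ∃ m : ℤ, ordv w ((x i).toMul : F) = p ^ k * m := by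
        intro i
        have h2 := congrArg (fun t : Additive Mˣ => ordv W ((t.toMul : Mˣ) : M)) (hxw i)
        simp only [toMul_nsmul, toMul_add] at h2
        rw [au_apply, ov_pow, ov_unit, mul_zero, ov_mul, ov_pow] at h2
        have h3 : ordv W (((α (x i)).toMul : Mˣ) : M) = ordv w ((x i).toMul : F) := hW _
        rw [h3] at h2
        refine ⟨- ordv W ((yM i).toMul : M), ?_⟩
        push_cast at h2
        linarith
      choose m hm using h1
      have h2 : lft (oO O w) X = p ^ k • ∑ i, b i * (m i : O) := by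
        rw [hX, map_sum, Finset.smul_sum]
        refine Finset.sum_congr rfl fun i _ => ?_
        rw [lft_tmul, oO_apply, hm i, nsmul_eq_mul]
        push_cast
        ring
      have h3 := hx2c.map (lft (oO O w)).toAddMonoidHom
      unfold Cg at h3
      rw [mem_pw] at h3
      obtain ⟨o, ho⟩ := h3
      have h4 : lft (oO O w) x2 - lft (oO O w) (n • x1) = p ^ k • o := ho
      refine ⟨o + n • p ^ c₀ • ∑ i, b i * (m i : O), ?_⟩
      rw [smul_add, ← h4, map_nsmul, hx1, map_nsmul, h2, smul_comm (p ^ k) n, smul_comm (p ^ k) (p ^ c₀)]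
      abel
    · refine ⟨0, ?_⟩
      have h1 : lft (oO O w) (ext O (ag (h : F →+* F)) x2) = lft (oO O w) x2 := by
        rw [lft_ext]
        have h2 : (oO O w).comp (ag (h : F →+* F)) = oO O w := by
          apply AddMonoidHom.ext
          intro y
          change ((ordv w (h (y.toMul : F)) : ℤ) : O) = ((ordv w (y.toMul : F) : ℤ) : O)
          rw [hh]
        rw [h2]
      rw [hx2e, map_smul, smul_eq_mul] at h1
      have h3 : (c h - 1) * lft (oO O w) x2 = 0 := by rw [sub_mul, h1, one_mul, sub_self]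
      rw [smul_zero]
      exact (mul_eq_zero.1 h3).resolve_left (sub_ne_zero.2 hch)
  -- (E), (F)
  obtain ⟨u, hu⟩ := hcls k x2 hval
  set u2 : O ⊗[ℤ] Additive (𝓞 F)ˣ := pj (fun h : F ≃ₐ[K] F => unitsHom h) c u with hu2
  have hmul : ∀ g h : F ≃ₐ[K] F, unitsHom (g * h) = (unitsHom g).comp (unitsHom h) := fun _ _ => rfl
  have hu2e : ∀ h : F ≃ₐ[K] F, ext O (unitsHom h) u2 = c h • u2 := fun h =>
    pj_eig (fun h : F ≃ₐ[K] F => unitsHom h) hmul c h u
  have hu2c : Cg p k (ext O (au F) u2) ((n * hF) • x2) := by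
    rw [hu2, pj_map (fun h : F ≃ₐ[K] F => unitsHom h) (fun h : F ≃ₐ[K] F => ag (h : F →+* F)) (au F)
      (fun g => au_unitsHom g)]
    refine (pj_cg' _ c _ _ hu.symm).trans ?_
    rw [pj_nsmul, pj_self (fun h : F ≃ₐ[K] F => ag (h : F →+* F)) c x2 hx2e, smul_smul, mul_comm]
    exact Cg.refl _
  -- (G)
  have hlog2 : ∀ τ ∈ (above T : Set (F →+* ℂ_[p])),
      ‖ev j (logUnits Lg τ) u2‖ ≤ C₂ * (1 / p : ℝ) ^ k := by
    intro τ hτ
    have h1 : ev j (logUnits Lg τ) u2 = ev j (lF Lg τ) (ext O (au F) u2) := by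
      rw [ev_ext, lF_au]
    unfold Cg at hu2c
    rw [mem_pw] at hu2c
    obtain ⟨y, hy⟩ := hu2c
    have h2 : ext O (au F) u2 = (n * hF) • x2 + p ^ k • y := by rw [← hy]; abel
    have hpk : ‖(p : ℂ_[p])‖ = 1 / p := by rw [norm_pC, one_div]
    have hX1 : ∀ τ' ∈ (above T : Set (F →+* ℂ_[p])), ‖ev j (lF Lg τ') x1‖ ≤ D * (C * (1 / p : ℝ) ^ k) := by
      intro τ' hτ'
      rw [hx1, ev_nsmul, norm_mul]
      have h3 : ‖((p ^ c₀ : ℕ) : ℂ_[p])‖ ≤ 1 := IsUltrametricDist.norm_natCast_le_one ℂ_[p] _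
      have h4 : ‖ev j (lF Lg τ') X‖ ≤ D * (C * (1 / p : ℝ) ^ k) := by
        rw [hX, ev_sum]
        refine IsUltrametricDist.norm_sum_le_of_forall_le_of_nonneg (by positivity) ?_
        intro i _
        rw [ev_tmul, norm_mul]
        exact mul_le_mul (hD _) (hxlog i τ' hτ') (norm_nonneg _) hD0.le
      calc _ ≤ 1 * ‖ev j (lF Lg τ') X‖ := mul_le_mul_of_nonneg_right h3 (norm_nonneg _)
        _ ≤ _ := by rw [one_mul]; exact h4
    have hX2 : ‖ev j (lF Lg τ) x2‖ ≤ D * (D * (C * (1 / p : ℝ) ^ k)) := by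
      refine pj_bd (fun h : F ≃ₐ[K] F => ag (h : F →+* F)) c j (lF Lg τ) hD hD0.le (by positivity) x1 ?_
      intro g'
      have h5 : (lF Lg τ).comp (ag (g' : F →+* F)) = lF Lg (τ.comp (g' : F →+* F)) := lF_ag _ _ _
      rw [h5]
      apply hX1
      change (τ.comp (g' : F →+* F)).comp (algebraMap K F) ∈ T
      have h6 : (τ.comp (g' : F →+* F)).comp (algebraMap K F) = τ.comp (algebraMap K F) := by
        apply RingHom.ext
        intro y
        change τ (g' (algebraMap K F y)) = τ (algebraMap K F y)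
        rw [g'.commutes]
      rw [h6]
      exact hτ
    have hY : ‖ev j (lF Lg τ) y‖ ≤ D * C₁ := ev_bd j (lF Lg τ) hD hD0.le hC₁0.le (hC₁ τ) y
    rw [h1, h2, ev_add, ev_nsmul, ev_nsmul]
    have h7 : ‖((n * hF : ℕ) : ℂ_[p]) * ev j (lF Lg τ) x2‖ ≤ D * (D * (C * (1 / p : ℝ) ^ k)) := by
      rw [norm_mul]
      calc _ ≤ 1 * ‖ev j (lF Lg τ) x2‖ :=
            mul_le_mul_of_nonneg_right (IsUltrametricDist.norm_natCast_le_one ℂ_[p] _) (norm_nonneg _)
        _ ≤ _ := by rw [one_mul]; exact hX2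
    have h8 : ‖((p ^ k : ℕ) : ℂ_[p]) * ev j (lF Lg τ) y‖ ≤ (1 / p : ℝ) ^ k * (D * C₁) := by
      rw [norm_mul]
      push_cast
      rw [norm_pow, hpk]
      exact mul_le_mul_of_nonneg_left hY (by positivity)
    refine (norm_add_le _ _).trans ?_
    rw [hC₂]
    calc _ ≤ D * (D * (C * (1 / p : ℝ) ^ k)) + (1 / p : ℝ) ^ k * (D * C₁) := add_le_add h7 h8
      _ = _ := by ring
  -- (H)
  have hH := hC₃ k u2 hu2e hlog2
  -- (I)
  have hI : (p ^ C₃ * hF * n * n * p ^ c₀) • X ∈ pw (O ⊗[ℤ] Additive Fˣ) p k := by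
    have h1 : p ^ C₃ • ext O (au F) u2 ∈ pw (O ⊗[ℤ] Additive Fˣ) p k := by
      have h2 := pw_map (ext O (au F)).toAddMonoidHom hH
      have h3 : (ext O (au F)).toAddMonoidHom (p ^ C₃ • u2) = p ^ C₃ • ext O (au F) u2 :=
        map_nsmul (ext O (au F)) _ _
      rw [h3] at h2
      exact h2
    have h4 : Cg p k ((p ^ C₃ * hF * n * n * p ^ c₀) • X) (p ^ C₃ • ext O (au F) u2) := by
      refine Cg.symm ((hu2c.nsmul (p ^ C₃)).trans ?_)
      refine ((hx2c.nsmul (n * hF)).nsmul (p ^ C₃)).trans ?_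
      rw [hx1, smul_smul, smul_smul, smul_smul]
      have h5 : ∀ m m' : ℕ, m = m' → Cg p k (m • X) (m' • X) := by
        rintro m _ rfl
        exact Cg.refl _
      exact h5 _ _ (by ring)
    exact h4.mem h1
  -- (J)
  have hJ : (p ^ C₃ * hF * n * n * p ^ c₀ * p ^ c₀) • z ∈ pw (O ⊗[ℤ] Additive (𝓞 M)ˣ) p k := by
    have h1 : (p ^ C₃ * hF * n * n * p ^ c₀) • (p ^ c₀ • zM) ∈ pw (O ⊗[ℤ] Additive Mˣ) p k := by
      refine (hA.nsmul _).mem ?_
      have h2 := pw_map (ext O α).toAddMonoidHom hI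
      have h3 : (ext O α).toAddMonoidHom ((p ^ C₃ * hF * n * n * p ^ c₀) • X) =
          (p ^ C₃ * hF * n * n * p ^ c₀) • ext O α X := map_nsmul (ext O α) _ _
      rw [h3] at h2
      exact h2
    rw [smul_smul, hzM, ← map_nsmul, mem_pw] at h1
    rw [mem_pw]
    refine ext_sat b (au M) k (fun a ha => ?_) _ h1
    obtain ⟨y, hy⟩ := ha
    obtain ⟨v', hv'⟩ := unit_of_pow (p ^ k) (pow_pos hp.out.pos k) y.toMul a.toMul
      (congrArg Additive.toMul hy).symm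
    refine ⟨Additive.ofMul v', ?_⟩
    apply Additive.toMul.injective
    apply uF_inj
    rw [toMul_nsmul, uF_pow]
    change uF a.toMul = uF v' ^ p ^ k
    rw [hv']
    exact congrArg Additive.toMul hy
  -- (K)
  rw [mem_pw] at hJ ⊢
  obtain ⟨y, hy⟩ := hJ
  exact hB _ k z y hy

end main

end Pool.Agent.Helper31.TH
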