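import Pool.Agent.Helper31.TH.Wrap
import Pool.Agent.Helper31.TH.Exp
import Pool.Agent.Helper59.SL.Defs

/-!
# Project TH (MP_fc6b1e_nt): `S_EXP`
-/

set_option autoImplicit false
set_option linter.unusedSectionVars false
set_option linter.style.haveILetI false

namespace Pool.Agent.Helper31.TH

open NumberField Module IsDedekindDomain TensorProduct
open Pool.Agent.Helper51.SigLeo Pool.Agent.Helper51.RP Pool.Agent.Helper42.RD
open Pool.Agent.Helper38.FD (Chr CutsOut LeopoldtFor)
open Pool.Agent.Helper17.TH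

variable {p : ℕ} [hp : Fact p.Prime] {K : Type} [Field K] [NumberField K]
  {χ : Chr K (AlgebraicClosure K) ℂ_[p]}

/-- a lift of an automorphism of a normal subfield -/
noncomputable def lftg (F : IntermediateField K (AlgebraicClosure K)) [Normal K F] (h : F ≃ₐ[K] F) :
    AlgebraicClosure K ≃ₐ[K] AlgebraicClosure K :=
  (AlgEquiv.restrictNormalHom_surjective (F := K) (K₁ := F) (AlgebraicClosure K) h).choose

theorem lftg_spec (F : IntermediateField K (AlgebraicClosure K)) [Normal K F] (h : F ≃ₐ[K] F) :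
    AlgEquiv.restrictNormalHom F (lftg F h) = h :=
  (AlgEquiv.restrictNormalHom_surjective (F := K) (K₁ := F) (AlgebraicClosure K) h).choose_spec

theorem lftg_apply (F : IntermediateField K (AlgebraicClosure K)) [Normal K F] (h : F ≃ₐ[K] F) (x : F) :
    lftg F h x = (h x : AlgebraicClosure K) := by
  rw [← AlgEquiv.restrictNormalHom_apply, lftg_spec]

/-- the character depends only on the restriction to its field -/
theorem chi_res {F : IntermediateField K (AlgebraicClosure K)} (hF : CutsOut χ F)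
    (g g' : AlgebraicClosure K ≃ₐ[K] AlgebraicClosure K) (h : ∀ x ∈ F, g x = g' x) : χ g = χ g' := by
  have h1 : ∀ x ∈ F, (g'⁻¹ * g) x = x := by
    intro x hx
    rw [AlgEquiv.mul_apply, h x hx, ← AlgEquiv.mul_apply, inv_mul_cancel, AlgEquiv.one_apply]
  have h2 := (hF _).2 h1
  rw [map_mul, map_inv, inv_mul_eq_one] at h2
  exact h2.symm

theorem cuts_unique {F H : IntermediateField K (AlgebraicClosure K)} (hF : CutsOut χ F)
    (hH : CutsOut χ H) : H = F := by
  have h1 : H.fixingSubgroup = F.fixingSubgroup := by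
    ext g
    rw [IntermediateField.mem_fixingSubgroup_iff, IntermediateField.mem_fixingSubgroup_iff,
      ← hF g, ← hH g]
  have h2 := congrArg IntermediateField.fixedField h1
  rwa [InfiniteGalois.fixedField_fixingSubgroup, InfiniteGalois.fixedField_fixingSubgroup] at h2

variable {O : Type} [CommRing O] (j : O →+* ℂ_[p]) (hj : Function.Injective j)
  (c : (AlgebraicClosure K ≃ₐ[K] AlgebraicClosure K) → O) (hc : ∀ g, j (c g) = (χ g : ℂ_[p]ˣ))

/-- the character of `Gal(F/K)` with values in `O` -/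
noncomputable def cF (F : IntermediateField K (AlgebraicClosure K)) [Normal K F] (hF : CutsOut χ F)
    (hj : Function.Injective j) (hc : ∀ g, j (c g) = (χ g : ℂ_[p]ˣ)) : (F ≃ₐ[K] F) →* O where
  toFun h := c (lftg F h)
  map_one' := by
    apply hj
    rw [hc, map_one]
    have h1 : χ (lftg F 1) = χ 1 := chi_res hF _ _ fun x hx => by
      rw [lftg_apply F 1 ⟨x, hx⟩]
      rfl
    rw [h1, map_one, Units.val_one]
  map_mul' h h' := by
    apply hj
    rw [map_mul, hc, hc, hc, ← Units.val_mul, ← map_mul]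
    congr 1
    refine chi_res hF _ _ fun x hx => ?_
    have e1 : lftg F h' x = (h' ⟨x, hx⟩ : AlgebraicClosure K) := lftg_apply F h' ⟨x, hx⟩
    have e2 : lftg F h (h' ⟨x, hx⟩ : AlgebraicClosure K) = (h (h' ⟨x, hx⟩) : AlgebraicClosure K) :=
      lftg_apply F h _
    have e3 : lftg F (h * h') x = ((h * h') ⟨x, hx⟩ : AlgebraicClosure K) :=
      lftg_apply F (h * h') ⟨x, hx⟩
    rw [e3]
    change _ = lftg F h (lftg F h' x)
    rw [e1, e2]
    rfl

theorem cF_apply (F : IntermediateField K (AlgebraicClosure K)) [Normal K F] (hF : CutsOut χ F)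
    (h : F ≃ₐ[K] F) : cF j c F hF hj hc h = c (lftg F h) := rfl

theorem j_cF (F : IntermediateField K (AlgebraicClosure K)) [Normal K F] (hF : CutsOut χ F)
    (g : AlgebraicClosure K ≃ₐ[K] AlgebraicClosure K) :
    j (cF j c F hF hj hc (AlgEquiv.restrictNormalHom F g)) = (χ g : ℂ_[p]ˣ) := by
  rw [cF_apply, hc]
  congr 1
  refine chi_res hF _ _ fun x hx => ?_
  rw [lftg_apply F _ ⟨x, hx⟩, AlgEquiv.restrictNormalHom_apply]

/-- the Leopoldt hypothesis -/
theorem leo_use (F : IntermediateField K (AlgebraicClosure K)) [IsGalois K F] (hF : CutsOut χ F)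
    (ιinf : AlgebraicClosure K →+* ℂ) (ιp : AlgebraicClosure K →+* ℂ_[p]) (Lg : IwasawaLog p ℂ_[p])
    (S : Set (K →+* ℂ)) (hL : LeopoldtFor ιinf ιp Lg S χ) (v : ℂ_[p] ⊗[ℤ] Additive (𝓞 F)ˣ)
    (hv : ∀ h : F ≃ₐ[K] F, extEnd (unitsHom h) v = j (cF j c F hF hj hc h) • v)
    (hlog : ∀ τ ∈ (above (TSet ιinf ιp S) : Set (F →+* ℂ_[p])), extHom (logUnits Lg τ) v = 0) :
    v = 0 := by
  obtain ⟨H, hfd, hcut, hLH⟩ := hL
  obtain rfl := cuts_unique hF hcut
  obtain ⟨χ', hχ', hinj⟩ := hLH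
  have h1 : ∀ h : H ≃ₐ[K] H, ((χ' h : ℂ_[p]ˣ) : ℂ_[p]) = j (cF j c H hF hj hc h) := by
    intro h
    have h2 := hχ' (lftg H h) h fun x => lftg_apply H h x
    rw [← h2, cF_apply, hc]
  have h2 : Pool.Agent.Helper59.SL.Eig (fun γ ↦ ((χ' γ : ℂ_[p]ˣ) : ℂ_[p])) v := by
    intro γ
    rw [hv γ, ← h1]
  have h3 := Pool.Agent.Helper59.SL.Eig.eChi_eq h2
  have h4 := hinj v ?_
  · rw [h3] at h4
    exact h4
  · rintro ℓ ⟨σ, hσ, rfl⟩
    rw [h3]
    exact hlog _ ⟨σ.comp (algebraMap K H), hσ, rfl⟩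

/-- **S_EXP** -/
theorem s_exp : S_EXP := by
  intro p _ K _ _ ιinf ιp Lg S hS χ η F _ _ g₀ hT hL O _ _ _ _ _ j hj hja c hc
  classical
  have hF : CutsOut χ (F 0) := by
    intro g
    rw [hT.cut, hT.zero]
    exact ⟨fun h => ⟨h, rfl⟩, fun h => h.1⟩
  obtain ⟨B, hB⟩ := exp_gen (K := K) (F := F 0) j hj hja Lg (TSet ιinf ιp S) hS
    (cF j c (F 0) hF hj hc) (fun v hv hlog => leo_use j hj c hc (F 0) hF ιinf ιp Lg S hL v hv hlog)
  refine ⟨B, fun m k z hlog hz => ?_⟩
  letI := alg (tw_le hT m)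
  haveI : IsScalarTower K (F 0) (F m) := IsScalarTower.of_algebraMap_eq (fun _ => rfl)
  obtain ⟨hgal, hdeg⟩ := res_deg hT m
  have hc0 : c g₀ = 1 := by
    apply hj
    rw [hc, hT.g₀χ, map_one, Units.val_one]
  have key := hB (F m) hdeg (res (tw_le hT m) g₀ (fix_g₀ hT)) (res_gen hT m) ?_ k z hlog ?_ ?_
  · exact (mem_pw _ _).1 key
  · intro w
    obtain ⟨W, hW⟩ := Pool.Agent.Helper44.PB.ex_bel (L := F m) w
    rcases hT.loc m W with h1 | ⟨g, hg, hχ⟩
    · left
      refine ⟨W, fun x => ?_⟩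
      rw [← hW]
      exact uni_ord hT m W h1 x
    · right
      refine ⟨AlgEquiv.restrictNormalHom (F 0) g, fun x => ?_, fun h1 => ?_⟩
      · have h2 : ordv W (algebraMap (F 0) (F m) (AlgEquiv.restrictNormalHom (F 0) g x)) =
            ordv W (algebraMap (F 0) (F m) x) := by
          refine hg _ _ x.2 ?_
          exact AlgEquiv.restrictNormalHom_apply (F 0) g x
        rw [Pool.Agent.Helper40.RD.ordW, Pool.Agent.Helper40.RD.ordW, hW] at h2
        have h3 : (w.asIdeal.ramificationIdx' W.asIdeal : ℤ) ≠ 0 := by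
          haveI : W.asIdeal.LiesOver w.asIdeal := by rw [← hW]; infer_instance
          exact_mod_cast Ideal.IsDedekindDomain.ramificationIdx'_ne_zero_of_liesOver W.asIdeal
            w.ne_bot
        exact mul_left_cancel₀ h3 h2
      · apply hχ
        apply Units.ext
        rw [← j_cF j hj c hc (F 0) hF g, h1, map_one, Units.val_one]
  · obtain ⟨y, hy⟩ := hz g₀
    unfold Cg
    rw [mem_pw]
    refine ⟨y, ?_⟩
    rw [hc0, one_smul] at hy
    exact hy
  · intro h
    refine ⟨AlgEquiv.restrictNormalHom (F m) (lftg (F 0) h), fun x => ?_, ?_⟩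
    · apply Subtype.ext
      rw [AlgEquiv.restrictNormalHom_apply]
      exact lftg_apply (F 0) h x
    · obtain ⟨y, hy⟩ := hz (lftg (F 0) h)
      unfold Cg
      rw [mem_pw]
      exact ⟨y, hy⟩

end Pool.Agent.Helper31.TH
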