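import Mathlib

/-!
# Project TH (MP_fc6b1e_nt), II.2: descent by Hilbert 90
-/

set_option autoImplicit false

namespace Pool.Agent.Helper31.TH

/-- In a finite cyclic group, if the kernel of `φ` is killed by `n`, then the `n`-th powers are in the image. -/
theorem cyc_range {C : Type*} [CommGroup C] [Finite C] [IsCyclic C] (φ : C →* C) (n : ℕ)
    (h : ∀ x : C, φ x = 1 → x ^ n = 1) (ξ : C) : ∃ μ : C, φ μ = ξ ^ n := by
  have h1 : Nat.card φ.ker ∣ n := by
    obtain ⟨g, hg⟩ := (inferInstance : IsCyclic φ.ker).exists_generator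
    rw [← orderOf_eq_card_of_forall_mem_zpowers hg]
    apply orderOf_dvd_of_pow_eq_one
    apply Subtype.ext
    have := h g.1 g.2
    simpa using this
  have h2 : φ.range.index = Nat.card φ.ker := by
    have e1 := φ.ker.card_mul_index
    have e2 := φ.range.card_mul_index
    rw [Subgroup.index_ker] at e1
    have h3 : 0 < Nat.card φ.range := Nat.card_pos
    have : Nat.card φ.range * φ.range.index = Nat.card φ.range * Nat.card φ.ker := by
      rw [e2, ← e1, mul_comm]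
    exact Nat.eq_of_mul_eq_mul_left h3 this
  have h3 : ξ ^ n ∈ φ.range := by
    obtain ⟨m, hm⟩ := h1
    have h4 : ξ ^ φ.range.index ∈ φ.range := Subgroup.pow_index_mem _ _
    rw [hm, ← h2, pow_mul]
    exact pow_mem h4 m
  exact h3

section

variable {F M : Type} [Field F] [Field M] [Algebra F M] [FiniteDimensional F M] [IsGalois F M]

/-- an element fixed by a generator is in the base field -/
theorem fixed_mem (g : M ≃ₐ[F] M) (hg : ∀ x, x ∈ Subgroup.zpowers g) (y : M) (hy : g y = y) :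
    ∃ x : F, algebraMap F M x = y := by
  have h1 : y ∈ (⊥ : IntermediateField F M) := by
    have h2 : (⊥ : IntermediateField F M) = IntermediateField.fixedField (⊤ : Subgroup (M ≃ₐ[F] M)) := by
      rw [← IsGalois.fixedField_fixingSubgroup (⊥ : IntermediateField F M)]
      congr 1
      exact IntermediateField.fixingSubgroup_bot
    rw [h2]
    intro s
    have h3 := hg s.1
    rw [Subgroup.mem_zpowers_iff] at h3
    obtain ⟨k, hk⟩ := h3
    have h4 : ∀ k : ℤ, (g ^ k) y = y := by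
      have hin : g⁻¹ y = y := by
        conv_lhs => rw [← hy]
        rw [← AlgEquiv.mul_apply, inv_mul_cancel, AlgEquiv.one_apply]
      intro k
      induction k using Int.induction_on with
      | zero => simp
      | succ n ih => rw [zpow_add, AlgEquiv.mul_apply, zpow_one, hy, ih]
      | pred n ih => rw [zpow_sub, AlgEquiv.mul_apply, zpow_one, hin, ih]
    change s.1 y = y
    rw [← hk]
    exact h4 k
  rw [IntermediateField.mem_bot] at h1
  exact h1

theorem fixed_unit (g : M ≃ₐ[F] M) (hg : ∀ x, x ∈ Subgroup.zpowers g) (y : Mˣ)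
    (hy : g (y : M) = y) : ∃ x : Fˣ, algebraMap F M (x : F) = y := by
  obtain ⟨x, hx⟩ := fixed_mem g hg (y : M) hy
  have hx0 : x ≠ 0 := by
    rintro rfl
    rw [map_zero] at hx
    exact y.ne_zero hx.symm
  exact ⟨Units.mk0 x hx0, hx⟩

/-- **II.2 (a).** -/
theorem h90a (p : ℕ) (g : M ≃ₐ[F] M) (hg : ∀ x, x ∈ Subgroup.zpowers g) (c : ℕ)
    (hc : ∀ (ξ : F) (n : ℕ), ξ ^ p ^ n = 1 → ξ ^ p ^ c = 1) (k : ℕ) (ε u : Mˣ)
    (h : g (ε : M) = ε * (u : M) ^ p ^ k) :
    ∃ (x : Fˣ) (w : Mˣ), (ε : M) ^ p ^ c = algebraMap F M (x : F) * (w : M) ^ p ^ k := by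
  have hcyc : IsCyclic (M ≃ₐ[F] M) := ⟨g, hg⟩
  have hN : Algebra.norm F ((u : M) ^ p ^ k) = 1 := by
    have h2 : Algebra.norm F (g (ε : M)) = Algebra.norm F (ε : M) := by
      exact Algebra.norm_eq_of_algEquiv g (ε : M)
    have h0 : Algebra.norm F (ε : M) ≠ 0 := by
      rw [Algebra.norm_ne_zero_iff]
      exact ε.ne_zero
    rw [h, map_mul] at h2
    exact mul_left_cancel₀ h0 (by rw [h2, mul_one])
  rw [map_pow] at hN
  have h3 := hc _ _ hN
  rw [← map_pow] at h3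
  obtain ⟨y, hy⟩ := groupCohomology.exists_div_of_norm_eq_one hg h3
  -- y / g y = u ^ (p ^ c)
  have hgy : g (y : M) ≠ 0 := by
    intro h0
    exact y.ne_zero ((map_eq_zero g).1 h0)
  have hfix : g (((ε ^ p ^ c * y ^ p ^ k : Mˣ)) : M) = ((ε ^ p ^ c * y ^ p ^ k : Mˣ) : M) := by
    have h4 : (y : M) = g (y : M) * (u : M) ^ p ^ c := by
      rw [← hy]; field_simp
    push_cast
    rw [map_mul, map_pow, map_pow, h]
    conv_rhs => rw [h4]
    ring
  obtain ⟨x, hx⟩ := fixed_unit g hg _ hfix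
  refine ⟨x, y⁻¹, ?_⟩
  rw [hx]
  have hy0 : (y : M) ≠ 0 := y.ne_zero
  push_cast
  rw [mul_assoc, ← mul_pow, mul_inv_cancel₀ hy0, one_pow, mul_one]

/-- the roots of unity of order dividing `p^k`, and `μ ↦ g μ / μ` -/
theorem h90b_aux (p : ℕ) (hp : 0 < p) (g : M ≃ₐ[F] M) (hg : ∀ x, x ∈ Subgroup.zpowers g) (c : ℕ)
    (hc : ∀ (ξ : F) (n : ℕ), ξ ^ p ^ n = 1 → ξ ^ p ^ c = 1) (k : ℕ) (ξ : Mˣ) (hξ : ξ ^ p ^ k = 1) :
    ∃ μ : Mˣ, μ ^ p ^ k = 1 ∧ g (μ : M) = μ * (ξ : M) ^ p ^ c := by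
  have hk : NeZero (p ^ k) := ⟨(pow_pos hp k).ne'⟩
  let G : Mˣ →* Mˣ := Units.map ((g : M →+* M) : M →* M)
  let φ : rootsOfUnity (p ^ k) M →* rootsOfUnity (p ^ k) M :=
    { toFun := fun μ => ⟨G μ.1 / μ.1, by
        rw [mem_rootsOfUnity, div_pow, ← map_pow, (mem_rootsOfUnity _ _).1 μ.2]
        simp⟩
      map_one' := by
        apply Subtype.ext
        simp
      map_mul' := fun x y => by
        apply Subtype.ext
        simp only [Subgroup.coe_mul, map_mul]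
        exact mul_div_mul_comm _ _ _ _ }
  obtain ⟨μ, hμ⟩ := cyc_range φ (p ^ c) (fun x hx => by
    have h1 : G x.1 / x.1 = 1 := congrArg Subtype.val hx
    have h2 : G x.1 = x.1 := div_eq_one.1 h1
    have h3 : g (x.1 : M) = (x.1 : M) := congrArg Units.val h2
    obtain ⟨y, hy⟩ := fixed_mem g hg _ h3
    have h4 : y ^ p ^ k = 1 := by
      apply (algebraMap F M).injective
      rw [map_pow, hy, map_one, ← Units.val_pow_eq_pow_val, (mem_rootsOfUnity _ _).1 x.2]
      rfl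
    have h5 := hc y k h4
    apply Subtype.ext
    apply Units.ext
    simp only [Subgroup.coe_pow, Units.val_pow_eq_pow_val, ← hy, ← map_pow, h5, map_one]
    rfl) (⟨ξ, (mem_rootsOfUnity _ _).2 hξ⟩ : rootsOfUnity (p ^ k) M)
  have h6 : G μ.1 / μ.1 = ξ ^ p ^ c := congrArg Subtype.val hμ
  refine ⟨μ.1, (mem_rootsOfUnity _ _).1 μ.2, ?_⟩
  have h7 : G μ.1 = μ.1 * ξ ^ p ^ c := by rw [← h6]; rw [mul_div_cancel]
  have h8 := congrArg Units.val h7
  simpa [G] using h8

/-- **II.2 (b).** -/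
theorem h90b (p : ℕ) (hp : 0 < p) (g : M ≃ₐ[F] M) (hg : ∀ x, x ∈ Subgroup.zpowers g) (c : ℕ)
    (hc : ∀ (ξ : F) (n : ℕ), ξ ^ p ^ n = 1 → ξ ^ p ^ c = 1) (k : ℕ) (y : Fˣ) (w : Mˣ)
    (h : algebraMap F M (y : F) = (w : M) ^ p ^ k) : ∃ y' : Fˣ, y ^ p ^ c = y' ^ p ^ k := by
  let G : Mˣ →* Mˣ := Units.map ((g : M →+* M) : M →* M)
  have hξ : (G w / w) ^ p ^ k = 1 := by
    rw [div_pow, div_eq_one]
    apply Units.ext
    rw [← map_pow]
    change g ((w ^ p ^ k : Mˣ) : M) = ((w ^ p ^ k : Mˣ) : M)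
    rw [Units.val_pow_eq_pow_val, ← h, AlgEquiv.commutes]
  obtain ⟨μ, hμ1, hμ2⟩ := h90b_aux p hp g hg c hc k (G w / w) hξ
  have hμ3 : G μ = μ * (G w / w) ^ p ^ c := by
    apply Units.ext
    rw [Units.val_mul, Units.val_pow_eq_pow_val]
    exact hμ2
  have hfix : G (w ^ p ^ c / μ) = w ^ p ^ c / μ := by
    rw [map_div, map_pow, hμ3, div_pow]
    rw [div_eq_div_iff_mul_eq_mul]
    calc G w ^ p ^ c * μ = (μ * (G w ^ p ^ c / w ^ p ^ c)) * w ^ p ^ c := by
          rw [mul_assoc, div_mul_cancel, mul_comm]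
      _ = w ^ p ^ c * (μ * (G w ^ p ^ c / w ^ p ^ c)) := mul_comm _ _
  obtain ⟨x, hx⟩ := fixed_unit g hg _ (congrArg Units.val hfix)
  refine ⟨x, ?_⟩
  apply Units.ext
  apply (algebraMap F M).injective
  rw [Units.val_pow_eq_pow_val, Units.val_pow_eq_pow_val, map_pow, map_pow, hx, h,
    ← Units.val_pow_eq_pow_val, ← Units.val_pow_eq_pow_val, ← Units.val_pow_eq_pow_val]
  congr 1
  rw [div_pow, hμ1, div_one, ← pow_mul, ← pow_mul, mul_comm]

end

end Pool.Agent.Helper31.TH
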