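import Pool.Agent.Helper89.WY.YLIN
import Pool.Agent.Helper35.WY.ZKLG
import Pool.Agent.Helper53.PW.LCLO
import Pool.Agent.Helper27.PW.LDEN
import Pool.Agent.Helper15.PW.LISO
import Pool.Agent.Helper31.TH.H90

/-!
# Project TH (MP_fc6b1e_nt), II.4: the local step
-/

set_option autoImplicit false

namespace Pool.Agent.Helper31.TH

open NumberField Module Filter Topology Pool.Agent.Helper51.SigLeo

variable {p : ℕ} [hp : Fact p.Prime] (L : IwasawaLog p ℂ_[p])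

theorem norm_pC : ‖(p : ℂ_[p])‖ = (p : ℝ)⁻¹ := Pool.Agent.Helper27.PW.norm_p p

theorem log_near (v : ℂ_[p]ˣ) (h : ‖(v : ℂ_[p]) - 1‖ ≤ (1 / p : ℝ) ^ 2) :
    ‖L.toFun v‖ = ‖(v : ℂ_[p]) - 1‖ :=
  Pool.Agent.Helper72.RL.l_iso p ℂ_[p] L v h

theorem log_div (u v : ℂ_[p]ˣ) : L.toFun (u / v) = L.toFun u - L.toFun v := by
  rw [div_eq_mul_inv, L.map_mul, Pool.Agent.Helper39.RP.log_inv, sub_eq_add_neg]

theorem log_tors (u : ℂ_[p]ˣ) (n : ℕ) (hn : 0 < n) (h : u ^ n = 1) : L.toFun u = 0 := by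
  have h1 : (n : ℂ_[p]) * L.toFun u = 0 := by
    rw [← nsmul_eq_mul, ← Pool.Agent.Helper39.RP.log_pow, h, Pool.Agent.Helper39.RP.log_one]
  have h2 : (n : ℂ_[p]) ≠ 0 := by exact_mod_cast hn.ne'
  exact (mul_eq_zero.1 h1).resolve_left h2

include L in
theorem tors_near (u : ℂ_[p]ˣ) (n : ℕ) (hn : 0 < n) (h : u ^ n = 1)
    (h1 : ‖(u : ℂ_[p]) - 1‖ ≤ (1 / p : ℝ) ^ 2) : u = 1 := by
  have h2 := log_near L u h1
  rw [log_tors L u n hn h, norm_zero] at h2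
  exact Units.ext (sub_eq_zero.1 (norm_eq_zero.1 h2.symm))

/-- limits of logarithms -/
theorem log_lim (v : ℕ → ℂ_[p]ˣ) (w : ℂ_[p]ˣ)
    (h : Tendsto (fun N => (v N : ℂ_[p])) atTop (𝓝 (w : ℂ_[p]))) :
    Tendsto (fun N => L.toFun (v N)) atTop (𝓝 (L.toFun w)) := by
  have h1 : Tendsto (fun N => ((v N / w : ℂ_[p]ˣ) : ℂ_[p]) - 1) atTop (𝓝 0) := by
    have h2 : Tendsto (fun N => (v N : ℂ_[p]) / (w : ℂ_[p]) - 1) atTop
        (𝓝 ((w : ℂ_[p]) / (w : ℂ_[p]) - 1)) := (h.div_const _).sub_const _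
    rw [div_self w.ne_zero, sub_self] at h2
    refine h2.congr fun N => ?_
    rw [Units.val_div_eq_div_val]
  have hpos : (0 : ℝ) < (1 / p : ℝ) ^ 2 := by
    have : (0 : ℝ) < p := by exact_mod_cast hp.out.pos
    positivity
  have h3 : ∀ᶠ N in atTop, ‖L.toFun (v N) - L.toFun w‖ = ‖((v N / w : ℂ_[p]ˣ) : ℂ_[p]) - 1‖ := by
    have h4 := (tendsto_zero_iff_norm_tendsto_zero.1 h1).eventually (gt_mem_nhds hpos)
    filter_upwards [h4] with N hN
    rw [← log_div, log_near L _ hN.le]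
  rw [tendsto_iff_norm_sub_tendsto_zero]
  refine (tendsto_zero_iff_norm_tendsto_zero.1 h1).congr' ?_
  filter_upwards [h3] with N hN
  exact hN.symm

/-- **The logarithm is bounded on a local field.** -/
theorem log_bdd (𝓕 : IntermediateField ℚ_[p] ℂ_[p]) [FiniteDimensional ℚ_[p] 𝓕] :
    ∃ C : ℝ, 0 < C ∧ ∀ u : ℂ_[p]ˣ, (u : ℂ_[p]) ∈ 𝓕 → ‖L.toFun u‖ ≤ C := by
  have hp0 : (0 : ℝ) < p := by exact_mod_cast hp.out.pos
  have hp1 : (1 : ℝ) < p := by exact_mod_cast hp.out.one_lt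
  have hpC : (p : ℂ_[p]) ≠ 0 := by exact_mod_cast hp.out.ne_zero
  by_contra hcon
  push Not at hcon
  choose u hu hL using fun n : ℕ => hcon (n + 1) (by positivity)
  let P : ℂ_[p]ˣ := Units.mk0 (p : ℂ_[p]) hpC
  have hP : L.toFun P = 0 := L.map_p P rfl
  have hPz : ∀ n : ℤ, L.toFun (P ^ n) = 0 := by
    intro n
    induction n using Int.induction_on with
    | zero => rw [zpow_zero, Pool.Agent.Helper39.RP.log_one]
    | succ n ih => rw [zpow_add, L.map_mul, ih, zpow_one, hP, add_zero]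
    | pred n ih => rw [zpow_sub, L.map_mul, ih, zpow_one, Pool.Agent.Helper39.RP.log_inv, hP, neg_zero, add_zero]
  choose m hm1 hm2 using fun n : ℕ => exists_mem_Ico_zpow (x := ‖(u n : ℂ_[p])‖) (y := (p : ℝ))
    (norm_pos_iff.2 (u n).ne_zero) hp1
  let v : ℕ → ℂ_[p]ˣ := fun n => u n * P ^ (m n)
  have hvn : ∀ n, ‖(v n : ℂ_[p])‖ = ‖(u n : ℂ_[p])‖ * ((p : ℝ) ^ (m n))⁻¹ := by
    intro n
    change ‖((u n * P ^ (m n) : ℂ_[p]ˣ) : ℂ_[p])‖ = _
    rw [Units.val_mul, norm_mul, Units.val_zpow_eq_zpow_val, norm_zpow]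
    change _ * ‖(p : ℂ_[p])‖ ^ (m n) = _
    rw [norm_pC, inv_zpow]
  have hv1 : ∀ n, 1 ≤ ‖(v n : ℂ_[p])‖ := by
    intro n
    rw [hvn, ← div_eq_mul_inv, le_div_iff₀ (by positivity), one_mul]
    exact hm1 n
  have hv2 : ∀ n, ‖(v n : ℂ_[p])‖ ≤ p := by
    intro n
    rw [hvn, ← div_eq_mul_inv, div_le_iff₀ (by positivity)]
    refine (hm2 n).le.trans_eq ?_
    rw [zpow_add₀ hp0.ne', zpow_one, mul_comm]
  have hvF : ∀ n, (v n : ℂ_[p]) ∈ 𝓕 := by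
    intro n
    change ((u n * P ^ (m n) : ℂ_[p]ˣ) : ℂ_[p]) ∈ 𝓕
    rw [Units.val_mul, Units.val_zpow_eq_zpow_val]
    exact mul_mem (hu n) (zpow_mem (natCast_mem 𝓕 p) _)
  have hproper : ProperSpace 𝓕 := FiniteDimensional.proper ℚ_[p] 𝓕
  have hc : IsCompact (Metric.closedBall (0 : 𝓕) p) := isCompact_closedBall 0 _
  obtain ⟨a, -, φ, hφ, hlim⟩ := hc.tendsto_subseq (x := fun n : ℕ ↦ (⟨v n, hvF n⟩ : 𝓕)) (fun n ↦ by
    rw [mem_closedBall_zero_iff]; exact hv2 n)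
  have hlim' : Tendsto (fun N => (v (φ N) : ℂ_[p])) atTop (𝓝 (a : ℂ_[p])) :=
    (continuous_subtype_val.tendsto a).comp hlim
  have ha1 : 1 ≤ ‖(a : ℂ_[p])‖ := ge_of_tendsto' hlim'.norm (fun N => hv1 _)
  have ha0 : (a : ℂ_[p]) ≠ 0 := by
    intro h0
    rw [h0, norm_zero] at ha1
    linarith
  have h5 := log_lim L (fun N => v (φ N)) (Units.mk0 _ ha0) hlim'
  have h6 := h5.norm
  obtain ⟨N0, hN0⟩ := (h6.eventually (gt_mem_nhds (lt_add_one _))).exists_forall_of_atTop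
  obtain ⟨n, hn⟩ := exists_nat_gt (‖L.toFun (Units.mk0 (a : ℂ_[p]) ha0)‖ + 1)
  have h7 := hN0 (max n N0) (le_max_right _ _)
  have h8 : L.toFun (v (φ (max n N0))) = L.toFun (u (φ (max n N0))) := by
    change L.toFun (u _ * P ^ _) = _
    rw [L.map_mul, hPz, add_zero]
  rw [h8] at h7
  have h9 := hL (φ (max n N0))
  have h10 : (n : ℝ) ≤ (φ (max n N0) : ℕ) := by
    exact_mod_cast (le_max_left n N0).trans (hφ.id_le _)
  linarith

include L in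
/-- **The roots of unity of `p`-power order of a local field.** -/
theorem rou_bdd (𝓕 : IntermediateField ℚ_[p] ℂ_[p]) [FiniteDimensional ℚ_[p] 𝓕] :
    ∃ c : ℕ, ∀ (ξ : ℂ_[p]) (n : ℕ), ξ ∈ 𝓕 → ξ ^ p ^ n = 1 → ξ ^ p ^ c = 1 := by
  have hp0 : (0 : ℝ) < p := by exact_mod_cast hp.out.pos
  set S : Set 𝓕 := {ξ | ∃ n : ℕ, ξ ^ p ^ n = 1} with hS
  have hnorm : ∀ ξ ∈ S, ‖ξ‖ = 1 := by
    rintro ξ ⟨n, hn⟩
    have h1 : ‖ξ‖ ^ p ^ n = 1 := by rw [← norm_pow, hn, norm_one]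
    exact (pow_eq_one_iff_of_nonneg (norm_nonneg _) (pow_pos hp.out.pos n).ne').1 h1
  have hfin : S.Finite := by
    by_contra hinf
    have hinf' : S.Infinite := hinf
    let f := hinf'.natEmbedding
    have hproper : ProperSpace 𝓕 := FiniteDimensional.proper ℚ_[p] 𝓕
    have hc : IsCompact (Metric.closedBall (0 : 𝓕) 1) := isCompact_closedBall 0 1
    obtain ⟨a, -, φ, hφ, hlim⟩ := hc.tendsto_subseq (x := fun n : ℕ ↦ ((f n : S) : 𝓕)) (fun n ↦ by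
      rw [mem_closedBall_zero_iff, hnorm _ (f n).2])
    have hcau := hlim.cauchySeq
    rw [Metric.cauchySeq_iff'] at hcau
    obtain ⟨N, hN⟩ := hcau ((1 / p : ℝ) ^ 2) (by positivity)
    have h1 := hN (N + 1) (Nat.le_succ N)
    rw [dist_eq_norm] at h1
    have hne : φ (N + 1) ≠ φ N := (hφ (Nat.lt_succ_self N)).ne'
    obtain ⟨n1, hn1⟩ := (f (φ (N + 1))).2
    obtain ⟨n2, hn2⟩ := (f (φ N)).2
    set x : 𝓕 := ((f (φ (N + 1)) : S) : 𝓕) with hx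
    set y : 𝓕 := ((f (φ N) : S) : 𝓕) with hy
    have hx0 : x ≠ 0 := by
      intro h0
      rw [h0, zero_pow (pow_pos hp.out.pos _).ne'] at hn1
      exact zero_ne_one hn1
    have hy0 : y ≠ 0 := by
      intro h0
      rw [h0, zero_pow (pow_pos hp.out.pos _).ne'] at hn2
      exact zero_ne_one hn2
    have hy1 : ‖y‖ = 1 := hnorm _ (f (φ N)).2
    have hxC : (x : ℂ_[p]) ≠ 0 := by simpa using hx0
    have hyC : (y : ℂ_[p]) ≠ 0 := by simpa using hy0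
    have h2 : (Units.mk0 (x : ℂ_[p]) hxC / Units.mk0 (y : ℂ_[p]) hyC) ^ p ^ (n1 + n2) = 1 := by
      apply Units.ext
      rw [div_pow, Units.val_div_eq_div_val, Units.val_pow_eq_pow_val, Units.val_pow_eq_pow_val,
        Units.val_mk0, Units.val_mk0]
      have e1 : (x : ℂ_[p]) ^ p ^ (n1 + n2) = 1 := by
        rw [pow_add, pow_mul, ← SubmonoidClass.coe_pow, hn1]; simp
      have e2 : (y : ℂ_[p]) ^ p ^ (n1 + n2) = 1 := by
        rw [add_comm, pow_add, pow_mul, ← SubmonoidClass.coe_pow, hn2]; simp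
      rw [e1, e2]; simp
    have h3 := tors_near L _ _ (pow_pos hp.out.pos _) h2 (by
      rw [Units.val_div_eq_div_val, Units.val_mk0, Units.val_mk0]
      have e3 : (x : ℂ_[p]) / y - 1 = (x - y : 𝓕) / (y : ℂ_[p]) := by
        push_cast
        field_simp
      rw [e3, norm_div]
      change ‖x - y‖ / ‖y‖ ≤ _
      rw [hy1, div_one]
      exact h1.le)
    have h4 : (x : ℂ_[p]) = y := by
      have := congrArg Units.val (div_eq_one.1 h3)
      simpa using this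
    have h5 : x = y := Subtype.ext h4
    exact hne (f.injective (Subtype.ext h5))
  -- a common exponent
  have hex : ∀ ξ : 𝓕, ∃ n : ℕ, ξ ∈ S → ξ ^ p ^ n = 1 := by
    intro ξ
    by_cases h : ξ ∈ S
    · obtain ⟨n, hn⟩ := h
      exact ⟨n, fun _ => hn⟩
    · exact ⟨0, fun h' => absurd h' h⟩
  choose e he using hex
  refine ⟨hfin.toFinset.sup e, fun ξ n hξ hn => ?_⟩
  have hmem : (⟨ξ, hξ⟩ : 𝓕) ∈ S := ⟨n, Subtype.ext (by simpa using hn)⟩
  have h1 := he _ hmem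
  have h2 : e ⟨ξ, hξ⟩ ≤ hfin.toFinset.sup e := Finset.le_sup (f := e) (hfin.mem_toFinset.2 hmem)
  have h3 : ξ ^ p ^ e ⟨ξ, hξ⟩ = 1 := by simpa using congrArg Subtype.val h1
  obtain ⟨d, hd⟩ := Nat.exists_eq_add_of_le h2
  rw [hd, pow_add, pow_mul, h3, one_pow]

/-- **II.4.** Let `τ : F → ℂ_p`. There is a constant `C` such that for all cyclic `p`-power extensions `M` of `F`, all
extensions `σ` of `τ`: if `u_N^(p^c) = x y_N^(p^k)`, `x ∈ F`, the `σ(g u_N)` have absolute value one and logarithms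
which tend to zero for all `g ∈ Gal(M/F)`, then `|log τ(x)| ≤ C p^(-k)`. -/
theorem loc_bound {F : Type} [Field F] [NumberField F] (τ : F →+* ℂ_[p]) :
    ∃ C : ℝ, 0 < C ∧ ∀ (M : Type) [Field M] [NumberField M] [Algebra F M] [IsGalois F M],
      IsCyclic (M ≃ₐ[F] M) → (∃ l : ℕ, finrank F M = p ^ l) →
      ∀ σ : M →+* ℂ_[p], σ.comp (algebraMap F M) = τ →
      ∀ (k c : ℕ) (x : Fˣ) (u y : ℕ → Mˣ), (∀ N, ‖σ (u N : M)‖ = 1) →
        (∀ N, (u N : M) ^ p ^ c = algebraMap F M (x : F) * (y N : M) ^ p ^ k) →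
        (∀ g : M ≃ₐ[F] M, Tendsto (fun N => L.toFun (Units.map ((σ.comp (g : M →+* M) : M →+* ℂ_[p]) :
          M →* ℂ_[p]) (u N))) atTop (𝓝 0)) →
        ‖L.toFun (Units.map (τ : F →* ℂ_[p]) x)‖ ≤ C * (1 / p : ℝ) ^ k := by
  have hp0 : (0 : ℝ) < p := by exact_mod_cast hp.out.pos
  obtain ⟨𝓕₀, hfd₀, h₀, hd₀, -⟩ := Pool.Agent.Helper53.PW.l_clo p ℂ_[p] F τ
  obtain ⟨C₀, hC₀, hlog⟩ := log_bdd L 𝓕₀
  obtain ⟨c₀, hrou⟩ := rou_bdd L 𝓕₀
  refine ⟨C₀ * (p : ℝ) ^ c₀, by positivity, ?_⟩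
  intro M _ _ _ _ hcyc hdeg σ hσ k c x u y hun huy hlim
  obtain ⟨𝓕, hfd, h, g, g', t, hd, -, -, -, hg, hfix⟩ :=
    Pool.Agent.Helper89.WY.loc_data Pool.Agent.Helper53.PW.l_clo Pool.Agent.Helper27.PW.l_den
      Pool.Agent.Helper15.PW.l_iso hcyc hdeg σ
  have hfix' : ∀ w : 𝓕, g' w = w → (w : ℂ_[p]) ∈ 𝓕₀ := by
    intro w hw
    have h1 := hfix w hw
    rw [hσ] at h1
    exact (Pool.Agent.Helper89.WY.mem_clo h₀ hd₀ _).1 h1
  have hiso : ∀ w : 𝓕, ‖g' w‖ = ‖w‖ := fun w => Pool.Agent.Helper15.PW.l_iso p 𝓕 g' w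
  -- the sequence
  have hτx : τ (x : F) ≠ 0 := (map_ne_zero τ).2 x.ne_zero
  let Y : ℕ → 𝓕 := fun N => ⟨σ (y N : M), h _⟩
  have hpk : p ^ k ≠ 0 := (pow_pos hp.out.pos k).ne'
  have hYn : ∀ N, ‖Y N‖ = ‖Y 0‖ := by
    have h2 : ∀ N, ‖τ (x : F)‖ * ‖Y N‖ ^ p ^ k = 1 := by
      intro N
      have h3 := congrArg (fun z => ‖σ z‖) (huy N)
      simp only [map_pow, map_mul, norm_pow, norm_mul, hun N, one_pow] at h3
      have h4 : σ (algebraMap F M (x : F)) = τ (x : F) := by rw [← hσ]; rfl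
      rw [h4] at h3
      exact h3.symm
    intro N
    have h5 : ‖Y N‖ ^ p ^ k = ‖Y 0‖ ^ p ^ k := by
      have h6 := (h2 N).trans (h2 0).symm
      exact mul_left_cancel₀ (norm_ne_zero_iff.2 hτx) h6
    exact (pow_left_inj₀ (norm_nonneg _) (norm_nonneg _) hpk).1 h5
  have hY0 : ∀ N, Y N ≠ 0 := by
    intro N h0
    have h1 : σ (y N : M) = 0 := congrArg Subtype.val h0
    exact (y N).ne_zero ((map_eq_zero σ).1 h1)
  have hproper : ProperSpace 𝓕 := FiniteDimensional.proper ℚ_[p] 𝓕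
  have hc : IsCompact (Metric.closedBall (0 : 𝓕) ‖Y 0‖) := isCompact_closedBall 0 _
  obtain ⟨a, -, φ, hφ, hlimY⟩ := hc.tendsto_subseq (x := Y) (fun n ↦ by
    rw [mem_closedBall_zero_iff, hYn])
  have hlimn : Tendsto (fun N => ‖Y (φ N)‖) atTop (𝓝 ‖a‖) := hlimY.norm
  have han : ‖a‖ = ‖Y 0‖ := by
    have h1 : Tendsto (fun N => ‖Y (φ N)‖) atTop (𝓝 ‖Y 0‖) := by
      simp only [hYn]
      exact tendsto_const_nhds
    exact tendsto_nhds_unique hlimn h1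
  have ha0 : a ≠ 0 := by
    intro h0
    rw [h0, norm_zero] at han
    exact hY0 0 (norm_eq_zero.1 han.symm)
  have haC : (a : ℂ_[p]) ≠ 0 := by simpa using ha0
  have hga0 : g' a ≠ 0 := by
    intro h0
    exact ha0 ((map_eq_zero g').1 h0)
  have hgaC : ((g' a : 𝓕) : ℂ_[p]) ≠ 0 := by simpa using hga0
  let A : ℂ_[p]ˣ := Units.mk0 (a : ℂ_[p]) haC
  let A' : ℂ_[p]ˣ := Units.mk0 ((g' a : 𝓕) : ℂ_[p]) hgaC
  let X : ℂ_[p]ˣ := Units.map (τ : F →* ℂ_[p]) x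
  -- the logarithms of the limits
  have key : ∀ (s : M ≃ₐ[F] M) (b : ℂ_[p]ˣ),
      Tendsto (fun N => σ (s (y (φ N) : M))) atTop (𝓝 (b : ℂ_[p])) →
      (p ^ k : ℕ) • L.toFun b = - L.toFun X := by
    intro s b hb
    have h1 := log_lim L (fun N => Units.map ((σ.comp (s : M →+* M) : M →+* ℂ_[p]) :
          M →* ℂ_[p]) (y (φ N))) b hb
    have h2 : Tendsto (fun N => (p ^ c : ℕ) • L.toFun (Units.map ((σ.comp (s : M →+* M) : M →+* ℂ_[p]) :
          M →* ℂ_[p]) (u (φ N))) - L.toFun X) atTop (𝓝 ((p ^ c : ℕ) • (0 : ℂ_[p]) - L.toFun X)) :=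
      (((hlim s).comp hφ.tendsto_atTop).const_smul _).sub_const _
    rw [smul_zero, zero_sub] at h2
    have h3 : ∀ N, (p ^ c : ℕ) • L.toFun (Units.map ((σ.comp (s : M →+* M) : M →+* ℂ_[p]) :
          M →* ℂ_[p]) (u (φ N))) - L.toFun X =
        (p ^ k : ℕ) • L.toFun (Units.map ((σ.comp (s : M →+* M) : M →+* ℂ_[p]) :
          M →* ℂ_[p]) (y (φ N))) := by
      intro N
      rw [← Pool.Agent.Helper39.RP.log_pow, ← Pool.Agent.Helper39.RP.log_pow, sub_eq_iff_eq_add,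
        ← L.map_mul]
      congr 1
      apply Units.ext
      rw [Units.val_mul, Units.val_pow_eq_pow_val, Units.val_pow_eq_pow_val]
      have h4 := congrArg (fun z => σ (s z)) (huy (φ N))
      simp only [map_pow, map_mul, AlgEquiv.commutes] at h4
      have h5 : σ (algebraMap F M (x : F)) = τ (x : F) := by rw [← hσ]; rfl
      rw [h5, mul_comm] at h4
      exact h4
    have h6 : Tendsto (fun N => (p ^ k : ℕ) • L.toFun (Units.map ((σ.comp (s : M →+* M) :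
        M →+* ℂ_[p]) : M →* ℂ_[p]) (y (φ N)))) atTop (𝓝 (- L.toFun X)) :=
      h2.congr h3
    exact tendsto_nhds_unique (h1.const_smul (p ^ k : ℕ)) h6
  have hA := key 1 A ((continuous_subtype_val.tendsto a).comp hlimY)
  have hcont : Continuous g' := by
    exact (LinearMap.continuous_of_finiteDimensional (g'.toLinearMap : 𝓕 →ₗ[ℚ_[p]] 𝓕))
  have hA' := key g A' (by
    have h1 : Tendsto (fun N => g' (Y (φ N))) atTop (𝓝 (g' a)) := (hcont.tendsto a).comp hlimY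
    have h2 := (continuous_subtype_val.tendsto (g' a)).comp h1
    refine h2.congr fun N => ?_
    exact hg _)
  have hpkC : ((p ^ k : ℕ) : ℂ_[p]) ≠ 0 := by exact_mod_cast hpk
  have hAA : L.toFun (A' / A) = 0 := by
    rw [log_div, sub_eq_zero]
    have h1 := hA'.trans hA.symm
    rw [nsmul_eq_mul, nsmul_eq_mul] at h1
    exact mul_left_cancel₀ hpkC h1
  have hAAn : ‖((A' / A : ℂ_[p]ˣ) : ℂ_[p])‖ = 1 := by
    rw [Units.val_div_eq_div_val, norm_div]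
    change ‖g' a‖ / ‖a‖ = 1
    rw [hiso, div_self (norm_ne_zero_iff.2 ha0)]
  have hAAm : ((A' / A : ℂ_[p]ˣ) : ℂ_[p]) ∈ 𝓕 := by
    rw [Units.val_div_eq_div_val]
    exact div_mem (g' a).2 a.2
  obtain ⟨n, hn0, hn⟩ := Pool.Agent.Helper35.WY.z_klg p L 𝓕 (A' / A) hAAm hAAn hAA
  -- the prime to `p` part
  obtain ⟨α, n', hn', hnn⟩ := Nat.exists_eq_pow_mul_and_not_dvd hn0.ne' p hp.out.ne_one
  let Au : 𝓕ˣ := Units.mk0 a ha0
  let G : 𝓕ˣ →* 𝓕ˣ := Units.map ((g' : 𝓕 →+* 𝓕) : 𝓕 →* 𝓕)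
  set ξ : 𝓕ˣ := (G Au / Au) ^ n' with hξ
  have hval : ∀ w : 𝓕ˣ, ∃ w' : ℂ_[p]ˣ, (w' : ℂ_[p]) = ((w : 𝓕) : ℂ_[p]) := by
    intro w
    exact ⟨Units.mk0 ((w : 𝓕) : ℂ_[p]) (by simp), rfl⟩
  have hξ1 : ξ ^ p ^ α = 1 := by
    rw [hξ, ← pow_mul, mul_comm, ← hnn]
    apply Units.ext
    apply Subtype.ext
    have h1 := congrArg Units.val hn
    rw [Units.val_pow_eq_pow_val, Units.val_div_eq_div_val] at h1
    rw [Units.val_pow_eq_pow_val, Units.val_div_eq_div_val]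
    simp only [IntermediateField.coe_pow, IntermediateField.coe_div, Units.val_one,
      IntermediateField.coe_one]
    exact h1
  have hNZ : NeZero (p ^ α) := ⟨(pow_pos hp.out.pos α).ne'⟩
  let ψ : rootsOfUnity (p ^ α) 𝓕 →* rootsOfUnity (p ^ α) 𝓕 :=
    { toFun := fun μ => ⟨G μ.1 / μ.1, by
        rw [mem_rootsOfUnity, div_pow, ← map_pow, (mem_rootsOfUnity _ _).1 μ.2]
        simp⟩
      map_one' := by
        apply Subtype.ext
        simp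
      map_mul' := fun x y => by
        apply Subtype.ext
        simp only [Subgroup.coe_mul, map_mul]
        exact mul_div_mul_comm _ _ _ _ }
  obtain ⟨μ, hμ⟩ := cyc_range ψ (p ^ c₀) (fun w hw => by
    have h1 : G w.1 / w.1 = 1 := congrArg Subtype.val hw
    have h2 : G w.1 = w.1 := div_eq_one.1 h1
    have h3 : g' (w.1 : 𝓕) = (w.1 : 𝓕) := congrArg Units.val h2
    have h4 := hfix' _ h3
    have h5 : ((w.1 : 𝓕) : ℂ_[p]) ^ p ^ α = 1 := by
      have h6 := congrArg (fun z : 𝓕ˣ => ((z : 𝓕) : ℂ_[p])) ((mem_rootsOfUnity _ _).1 w.2)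
      simpa using h6
    have h7 := hrou _ α h4 h5
    apply Subtype.ext
    apply Units.ext
    apply Subtype.ext
    simpa using h7) (⟨ξ, (mem_rootsOfUnity _ _).2 hξ1⟩ : rootsOfUnity (p ^ α) 𝓕)
  have hμ1 : G μ.1 / μ.1 = ξ ^ p ^ c₀ := congrArg Subtype.val hμ
  -- the fixed element
  set Z : 𝓕ˣ := Au ^ (n' * p ^ c₀) / μ.1 with hZ
  have hGZ : G Z = Z := by
    have e1 : G Z / Z = 1 := by
      rw [hZ, map_div, map_pow, div_div_div_comm, ← div_pow, hμ1, hξ, ← pow_mul, div_self']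
    exact div_eq_one.1 e1
  have hZ0 : ((Z : 𝓕) : ℂ_[p]) ∈ 𝓕₀ := hfix' _ (congrArg Units.val hGZ)
  let Zc : ℂ_[p]ˣ := Units.mk0 ((Z : 𝓕) : ℂ_[p]) (by simp)
  let μc : ℂ_[p]ˣ := Units.mk0 ((μ.1 : 𝓕) : ℂ_[p]) (by simp)
  have hμc : L.toFun μc = 0 := by
    apply log_tors L μc (p ^ α) (pow_pos hp.out.pos α)
    apply Units.ext
    rw [Units.val_pow_eq_pow_val]
    have h6 := congrArg (fun z : 𝓕ˣ => ((z : 𝓕) : ℂ_[p])) ((mem_rootsOfUnity _ _).1 μ.2)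
    simp only [Units.val_pow_eq_pow_val, IntermediateField.coe_pow, Units.val_one,
      IntermediateField.coe_one] at h6
    exact h6
  have hZc : Zc = A ^ (n' * p ^ c₀) / μc := by
    apply Units.ext
    rw [Units.val_div_eq_div_val, Units.val_pow_eq_pow_val]
    change ((Z : 𝓕) : ℂ_[p]) = _
    rw [hZ, Units.val_div_eq_div_val, Units.val_pow_eq_pow_val]
    simp only [IntermediateField.coe_div, IntermediateField.coe_pow]
    rfl
  have hLZ := hlog Zc hZ0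
  rw [hZc, log_div, hμc, sub_zero, Pool.Agent.Helper39.RP.log_pow, nsmul_eq_mul, norm_mul] at hLZ
  have hnn' : ‖((n' * p ^ c₀ : ℕ) : ℂ_[p])‖ = ((p : ℝ) ^ c₀)⁻¹ := by
    push_cast
    rw [norm_mul, norm_pow, norm_pC]
    have h8 : ‖(n' : ℂ_[p])‖ = 1 := by
      have h9 : (n' : ℂ_[p]) = algebraMap ℚ_[p] ℂ_[p] (n' : ℚ_[p]) := (map_natCast _ _).symm
      rw [h9, norm_algebraMap', Padic.norm_natCast_eq_one_iff]
      exact (Nat.Prime.coprime_iff_not_dvd hp.out).2 hn'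
    rw [h8, one_mul, inv_pow]
  rw [hnn'] at hLZ
  have hLA : ‖L.toFun A‖ ≤ C₀ * (p : ℝ) ^ c₀ := by
    rw [inv_mul_le_iff₀ (by positivity)] at hLZ
    rw [mul_comm]
    exact hLZ
  have h10 : ‖L.toFun X‖ = ((p : ℝ) ^ k)⁻¹ * ‖L.toFun A‖ := by
    have h11 := congrArg norm hA
    rw [norm_neg, nsmul_eq_mul, norm_mul] at h11
    push_cast at h11
    rw [norm_pow, norm_pC, inv_pow] at h11
    exact h11.symm
  change ‖L.toFun X‖ ≤ _
  rw [h10, one_div, inv_pow, mul_comm]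
  gcongr

end Pool.Agent.Helper31.TH
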