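import Pool.Agent.Helper51.RP.Defs
import Pool.Agent.Helper19.RD.FIN
import Pool.Agent.Helper31.TH.H90

/-!
# Project TH (MP_fc6b1e_nt), II.3: generators
-/

set_option autoImplicit false
set_option linter.unusedSectionVars false
set_option linter.style.haveILetI false

namespace Pool.Agent.Helper31.TH

open NumberField Module IsDedekindDomain Pool.Agent.Helper51.SigLeo Pool.Agent.Helper51.RP

/-- The fields of the tower above `F`: `M/F` is cyclic of degree a power of `p`, and unramified outside `R` (for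
`w ∉ R` there is a prime `W` of `M` above `w` with ramification index one). -/
structure Tow (p : ℕ) (F M : Type) [Field F] [NumberField F] [Field M] [NumberField M] [Algebra F M]
    (R : Set (HeightOneSpectrum (𝓞 F))) : Prop where
  gal : IsGalois F M
  cyc : IsCyclic (M ≃ₐ[F] M)
  deg : ∃ l : ℕ, finrank F M = p ^ l
  unr : ∀ w ∉ R, ∃ W : HeightOneSpectrum (𝓞 M), ∀ x : F, ordv W (algebraMap F M x) = ordv w x

section val

variable {F : Type} [Field F] [NumberField F] (w : HeightOneSpectrum (𝓞 F))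

theorem ov_mul (x y : Fˣ) : ordv w ((x * y : Fˣ) : F) = ordv w (x : F) + ordv w (y : F) := by
  unfold ordv
  rw [Units.val_mul, map_mul, WithZero.log_mul]
  · ring
  · rw [Valuation.ne_zero_iff]; exact x.ne_zero
  · rw [Valuation.ne_zero_iff]; exact y.ne_zero

theorem ov_inv (x : Fˣ) : ordv w ((x⁻¹ : Fˣ) : F) = - ordv w (x : F) := by
  unfold ordv
  rw [Units.val_inv_eq_inv_val, map_inv₀, WithZero.log_inv]

theorem ov_div (x y : Fˣ) : ordv w ((x / y : Fˣ) : F) = ordv w (x : F) - ordv w (y : F) := by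
  rw [div_eq_mul_inv, ov_mul, ov_inv, sub_eq_add_neg]

theorem ov_one : ordv w ((1 : Fˣ) : F) = 0 := by
  unfold ordv
  rw [Units.val_one, map_one, WithZero.log_one, neg_zero]

theorem ov_pow (x : Fˣ) (n : ℕ) : ordv w ((x ^ n : Fˣ) : F) = n * ordv w (x : F) := by
  induction n with
  | zero => rw [pow_zero, ov_one, Nat.cast_zero, zero_mul]
  | succ n ih => rw [pow_succ, ov_mul, ih]; push_cast; ring

/-- a unit of the ring of integers as an element of `Fˣ` -/
def uF (ε : (𝓞 F)ˣ) : Fˣ := Units.map (algebraMap (𝓞 F) F : 𝓞 F →* F) ε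

theorem uF_val (ε : (𝓞 F)ˣ) : (uF ε : F) = ((ε : 𝓞 F) : F) := rfl

theorem uF_mul (a b : (𝓞 F)ˣ) : uF (a * b) = uF a * uF b := map_mul _ _ _

theorem uF_pow (a : (𝓞 F)ˣ) (n : ℕ) : uF (a ^ n) = uF a ^ n := map_pow _ _ _

theorem uF_div (a b : (𝓞 F)ˣ) : uF (a / b) = uF a / uF b := map_div _ _ _

theorem uF_inv (a : (𝓞 F)ˣ) : uF a⁻¹ = (uF a)⁻¹ := map_inv _ _

theorem uF_inj : Function.Injective (uF : (𝓞 F)ˣ → Fˣ) := by
  intro a b h
  apply Units.ext
  apply RingOfIntegers.ext
  exact congrArg Units.val h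

theorem ov_unit (ε : (𝓞 F)ˣ) : ordv w (uF ε : F) = 0 := by
  have h1 : w.valuation F (uF ε : F) = 1 := by
    have ha : w.valuation F (algebraMap (𝓞 F) F (ε : 𝓞 F)) ≤ 1 := w.valuation_le_one _
    have hb : w.valuation F (algebraMap (𝓞 F) F ((ε⁻¹ : (𝓞 F)ˣ) : 𝓞 F)) ≤ 1 := w.valuation_le_one _
    have hab : w.valuation F (algebraMap (𝓞 F) F (ε : 𝓞 F)) *
        w.valuation F (algebraMap (𝓞 F) F ((ε⁻¹ : (𝓞 F)ˣ) : 𝓞 F)) = 1 := by
      rw [← map_mul, ← map_mul, Units.mul_inv, map_one, map_one]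
    refine le_antisymm ha ?_
    calc (1 : WithZero (Multiplicative ℤ)) = _ := hab.symm
      _ ≤ w.valuation F (algebraMap (𝓞 F) F (ε : 𝓞 F)) * 1 := mul_le_mul_right hb _
      _ = _ := mul_one _
  unfold ordv
  rw [h1, WithZero.log_one, neg_zero]

/-- a root of a unit is a unit -/
theorem unit_of_pow (n : ℕ) (hn : 0 < n) (v : Fˣ) (ε : (𝓞 F)ˣ) (h : v ^ n = uF ε) :
    ∃ v' : (𝓞 F)ˣ, uF v' = v := by
  have h1 : IsIntegral ℤ (v : F) := by
    apply IsIntegral.of_pow hn
    rw [← Units.val_pow_eq_pow_val, h]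
    exact (ε : 𝓞 F).isIntegral_coe
  have h2 : IsIntegral ℤ ((v⁻¹ : Fˣ) : F) := by
    apply IsIntegral.of_pow hn
    rw [← Units.val_pow_eq_pow_val, inv_pow, h, ← uF_inv]
    exact ((ε⁻¹ : (𝓞 F)ˣ) : 𝓞 F).isIntegral_coe
  refine ⟨⟨⟨v, h1⟩, ⟨((v⁻¹ : Fˣ) : F), h2⟩, ?_, ?_⟩, ?_⟩
  · apply RingOfIntegers.ext
    change (v : F) * ((v⁻¹ : Fˣ) : F) = 1
    rw [← Units.val_mul, mul_inv_cancel, Units.val_one]
  · apply RingOfIntegers.ext
    change ((v⁻¹ : Fˣ) : F) * (v : F) = 1
    rw [← Units.val_mul, inv_mul_cancel, Units.val_one]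
  · apply Units.ext
    rfl

end val

/-- Elements with valuations divisible by `p` outside the finite set `R`, pairwise incongruent. -/
theorem sel_fin (p : ℕ) [hp : Fact p.Prime] (K : Type) [Field K] [NumberField K]
    (R : Set (HeightOneSpectrum (𝓞 K))) (hR : R.Finite) : ∃ n : ℕ, ∀ F : Finset Kˣ,
      (∀ x ∈ F, ∀ w ∉ R, (p : ℤ) ∣ ordv w (x : K)) → (∀ x ∈ F, ∀ y ∈ F, x ≠ y → ¬ Pw p (x / y)) →
      F.card ≤ n := by
  classical
  obtain ⟨n, hn⟩ := Pool.Agent.Helper19.RD.d_fin p K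
  haveI : Finite R := hR
  haveI := Fintype.ofFinite R
  haveI : NeZero p := ⟨hp.out.ne_zero⟩
  refine ⟨n * Fintype.card (R → ZMod p), fun F hF1 hF2 => ?_⟩
  set φ : Kˣ → (R → ZMod p) := fun x w => ((ordv w.1 (x : K) : ℤ) : ZMod p) with hφ
  have hcard : F.card ≤ n * (Finset.image φ F).card := by
    apply Finset.card_le_mul_card_image
    intro C hC
    obtain ⟨y, hy, hyC⟩ := Finset.mem_image.mp hC
    set G : Finset Kˣ := (F.filter fun x => φ x = C).image fun x => x / y with hG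
    have hGc : G.card = (F.filter fun x => φ x = C).card :=
      Finset.card_image_of_injective _ fun a b h => div_left_injective h
    rw [← hGc]
    refine hn G ?_ ?_
    · intro z hz w
      rw [hG, Finset.mem_image] at hz
      obtain ⟨x, hx, rfl⟩ := hz
      rw [Finset.mem_filter] at hx
      rw [ov_div]
      by_cases hw : w ∈ R
      · have h1 : φ x ⟨w, hw⟩ = φ y ⟨w, hw⟩ := by rw [hx.2, hyC]
        have h2 : ((ordv w (x : K) : ℤ) : ZMod p) = ((ordv w (y : K) : ℤ) : ZMod p) := h1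
        rw [← ZMod.intCast_zmod_eq_zero_iff_dvd, Int.cast_sub, h2, sub_self]
      · exact dvd_sub (hF1 x hx.1 w hw) (hF1 y hy w hw)
    · intro z hz z' hz' hne
      rw [hG, Finset.mem_image] at hz hz'
      obtain ⟨x, hx, rfl⟩ := hz
      obtain ⟨x', hx', rfl⟩ := hz'
      rw [Finset.mem_filter] at hx hx'
      have h1 : x / y / (x' / y) = x / x' := by
        rw [div_div_div_cancel_right]
      rw [h1]
      exact hF2 x hx.1 x' hx'.1 fun h => hne (by rw [h])
  refine hcard.trans (Nat.mul_le_mul_left _ ?_)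
  exact Finset.card_le_univ _

/-- **II.3 (GEN).** The number of the classes of units modulo `p`-th powers which are invariant under `Gal(M/F)` is
bounded, uniformly in the tower. -/
theorem gen (p : ℕ) [hp : Fact p.Prime] (F : Type) [Field F] [NumberField F]
    (R : Set (HeightOneSpectrum (𝓞 F))) (hR : R.Finite) :
    ∃ N : ℕ, ∀ (M : Type) [Field M] [NumberField M] [Algebra F M], Tow p F M R →
      ∀ g : M ≃ₐ[F] M, (∀ x, x ∈ Subgroup.zpowers g) → ∀ S : Finset (𝓞 M)ˣ,
        (∀ ε ∈ S, ∃ u : (𝓞 M)ˣ, g (uF ε : M) = (uF ε : M) * (uF u : M) ^ p) →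
        (∀ ε ∈ S, ∀ ε' ∈ S, ε ≠ ε' → ¬ ∃ v : (𝓞 M)ˣ, ε / ε' = v ^ p) → S.card ≤ N := by
  classical
  obtain ⟨n, hn⟩ := sel_fin p F R hR
  have hp0 := hp.out.pos
  refine ⟨n * p, ?_⟩
  intro M _ _ _ hT g hg S hS1 hS2
  haveI := hT.gal
  haveI hcyc := hT.cyc
  have hex : ∀ ε : (𝓞 M)ˣ, ∃ u : (𝓞 M)ˣ, ε ∈ S → g (uF ε : M) = (uF ε : M) * (uF u : M) ^ p := by
    intro ε
    by_cases h : ε ∈ S
    · obtain ⟨u, hu⟩ := hS1 ε h
      exact ⟨u, fun _ => hu⟩
    · exact ⟨1, fun h' => absurd h' h⟩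
  choose u hu using hex
  set φ : (𝓞 M)ˣ → F := fun ε => Algebra.norm F (uF (u ε) : M) with hφ
  have hcard : S.card ≤ n * (Finset.image φ S).card := by
    apply Finset.card_le_mul_card_image
    intro C hC
    obtain ⟨ε₀, hε₀, hφ₀⟩ := Finset.mem_image.mp hC
    -- Hilbert 90 in the fibre
    have hx : ∀ ε : (𝓞 M)ˣ, ∃ (x : Fˣ) (y : Mˣ), (ε ∈ S ∧ φ ε = C) →
        algebraMap F M (x : F) = ((uF ε / uF ε₀ * y ^ p : Mˣ) : M) := by
      intro ε
      by_cases h : ε ∈ S ∧ φ ε = C
      · have h1 : Algebra.norm F ((uF (u ε) / uF (u ε₀) : Mˣ) : M) = 1 := by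
          rw [Units.val_div_eq_div_val, div_eq_mul_inv, map_mul]
          have h2 : Algebra.norm F (uF (u ε₀) : M) * Algebra.norm F ((uF (u ε₀) : M)⁻¹) = 1 := by
            rw [← map_mul, mul_inv_cancel₀ (Units.ne_zero _), map_one]
          have h3 : Algebra.norm F (uF (u ε) : M) = Algebra.norm F (uF (u ε₀) : M) :=
            h.2.trans hφ₀.symm
          rw [h3, h2]
        obtain ⟨y, hy⟩ := groupCohomology.exists_div_of_norm_eq_one hg h1
        have hgy : g (y : M) ≠ 0 := by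
          intro h0
          exact y.ne_zero ((map_eq_zero g).1 h0)
        have hfix : g ((uF ε / uF ε₀ * y ^ p : Mˣ) : M) = ((uF ε / uF ε₀ * y ^ p : Mˣ) : M) := by
          have h4 : (y : M) = g (y : M) * ((uF (u ε) : M) / (uF (u ε₀) : M)) := by
            rw [← Units.val_div_eq_div_val, ← hy]; field_simp
          have h5 : (y : M) ^ p = g (y : M) ^ p * ((uF (u ε) : M) ^ p / (uF (u ε₀) : M) ^ p) := by
            conv_lhs => rw [h4]
            rw [mul_pow, div_pow]
          rw [Units.val_mul, Units.val_pow_eq_pow_val, Units.val_div_eq_div_val, map_mul, map_div₀,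
            map_pow, hu ε h.1, hu ε₀ hε₀, h5]
          have e1 : (uF (u ε₀) : M) ^ p ≠ 0 := pow_ne_zero _ (Units.ne_zero _)
          have e2 : (uF ε₀ : M) ≠ 0 := Units.ne_zero _
          field_simp
        obtain ⟨x, hx⟩ := fixed_unit g hg _ hfix
        exact ⟨x, y, fun _ => hx⟩
      · exact ⟨1, 1, fun h' => absurd h' h⟩
    choose x y hxy using hx
    -- the classes are different
    have hdiff : ∀ ε ∈ S.filter (fun ε => φ ε = C), ∀ ε' ∈ S.filter (fun ε => φ ε = C), ε ≠ ε' →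
        ¬ Pw p (x ε / x ε') := by
      intro ε hε ε' hε' hne hpw
      rw [Finset.mem_filter] at hε hε'
      obtain ⟨z, hz⟩ := hpw
      apply hS2 ε hε.1 ε' hε'.1 hne
      have h1 := hxy ε hε
      have h2 := hxy ε' hε'
      -- ε / ε' is a p-th power in M
      have h3 : (Units.map (algebraMap F M : F →* M) z) ^ p = uF ε / uF ε₀ * y ε ^ p /
          (uF ε' / uF ε₀ * y ε' ^ p) := by
        apply Units.ext
        rw [Units.val_div_eq_div_val, ← h1, ← h2, ← map_div₀, ← Units.val_div_eq_div_val, hz,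
          Units.val_pow_eq_pow_val, Units.val_pow_eq_pow_val, map_pow]
        rfl
      set Z := Units.map (algebraMap F M : F →* M) z with hZ
      have h4 : (Z * y ε' / y ε) ^ p = uF (ε / ε') := by
        rw [uF_div, div_pow, mul_pow, h3]
        rw [div_mul_eq_mul_div, div_div]
        rw [div_eq_div_iff_mul_eq_mul]
        have : ∀ a b c d e : Mˣ, a / c * d * e * b = a * (b / c * e * d) := by
          intro a b c d e
          rw [div_mul_eq_mul_div, div_mul_eq_mul_div, div_mul_eq_mul_div, div_mul_eq_mul_div,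
            div_mul_eq_mul_div, mul_div_assoc']
          congr 1
          simp only [mul_comm, mul_left_comm]
        exact this _ _ _ _ _
      obtain ⟨v, hv⟩ := unit_of_pow p hp0 _ _ h4
      refine ⟨v, uF_inj ?_⟩
      rw [uF_pow, hv, h4]
    set G : Finset Fˣ := (S.filter fun ε => φ ε = C).image x with hG
    have hGc : G.card = (S.filter fun ε => φ ε = C).card := by
      apply Finset.card_image_of_injOn
      intro a ha b hb hab
      by_contra hne
      apply hdiff a ha b hb hne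
      rw [hab]
      exact ⟨1, by simp⟩
    rw [← hGc]
    refine hn G ?_ ?_
    · intro z hz w hw
      rw [hG, Finset.mem_image] at hz
      obtain ⟨ε, hε, rfl⟩ := hz
      rw [Finset.mem_filter] at hε
      obtain ⟨W, hW⟩ := hT.unr w hw
      rw [← hW, hxy ε hε, ov_mul, ov_div, ov_unit, ov_unit, ov_pow]
      simp
    · intro z hz z' hz' hne
      rw [hG, Finset.mem_image] at hz hz'
      obtain ⟨ε, hε, rfl⟩ := hz
      obtain ⟨ε', hε', rfl⟩ := hz'
      exact hdiff ε hε ε' hε' fun h => hne (by rw [h])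
  refine hcard.trans (Nat.mul_le_mul_left _ ?_)
  have h5 : Finset.image φ S ⊆ (Polynomial.nthRoots p (1 : F)).toFinset := by
    intro ζ hζ
    obtain ⟨ε, hε, rfl⟩ := Finset.mem_image.mp hζ
    rw [Multiset.mem_toFinset, Polynomial.mem_nthRoots hp0]
    have h2 : Algebra.norm F (g (uF ε : M)) = Algebra.norm F (uF ε : M) :=
      Algebra.norm_eq_of_algEquiv g (uF ε : M)
    have h0 : Algebra.norm F (uF ε : M) ≠ 0 := by
      rw [Algebra.norm_ne_zero_iff]
      exact Units.ne_zero _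
    rw [hu ε hε, map_mul, map_pow] at h2
    exact mul_left_cancel₀ h0 (by rw [h2, mul_one])
  exact (Finset.card_le_card h5).trans ((Multiset.toFinset_card_le _).trans (Polynomial.card_nthRoots p 1))

end Pool.Agent.Helper31.TH
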