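import Pool.Agent.Helper17.TH.GoalsI
import Pool.Agent.Helper31.TH.Gen
import Pool.Agent.Helper44.PB.VLA

/-!
# Project TH (MP_fc6b1e_nt), the tower of the fields `F m`, and `S_GEN`
-/

set_option autoImplicit false
set_option linter.unusedSectionVars false
set_option linter.style.haveILetI false

namespace Pool.Agent.Helper31.TH

open NumberField Module IsDedekindDomain TensorProduct
open Pool.Agent.Helper51.SigLeo Pool.Agent.Helper51.RP Pool.Agent.Helper42.RD
open Pool.Agent.Helper38.FD (Chr CutsOut LeopoldtFor)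
open Pool.Agent.Helper17.TH

variable {p : ℕ} [hp : Fact p.Prime] {K : Type} [Field K] [NumberField K]
  {χ : Chr K (AlgebraicClosure K) ℂ_[p]} {η : ℕ → Chr K (AlgebraicClosure K) ℂ_[p]}
  {F : ℕ → IntermediateField K (AlgebraicClosure K)} [∀ m, NumberField (F m)]
  [hG : ∀ m, IsGalois K (F m)] {g₀ : AlgebraicClosure K ≃ₐ[K] AlgebraicClosure K}

theorem tw_le (hT : Tw χ η F g₀) (m : ℕ) : F 0 ≤ F m := by
  have h1 : (F m).fixingSubgroup ≤ (F 0).fixingSubgroup := by
    intro g hg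
    rw [IntermediateField.mem_fixingSubgroup_iff] at hg ⊢
    rw [hT.cut] at hg
    rw [hT.cut]
    refine ⟨hg.1, ?_⟩
    rw [hT.zero]
    rfl
  have h2 := IntermediateField.fixedField_antitone h1
  rwa [InfiniteGalois.fixedField_fixingSubgroup, InfiniteGalois.fixedField_fixingSubgroup] at h2

/-- the inclusion of the fields -/
@[reducible] noncomputable def alg {F M : IntermediateField K (AlgebraicClosure K)} (h : F ≤ M) : Algebra F M :=
  (IntermediateField.inclusion h).toRingHom.toAlgebra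

/-- the restriction of `g₀`, which fixes `F` -/
noncomputable def res {F M : IntermediateField K (AlgebraicClosure K)} [Normal K M] (h : F ≤ M)
    (g : AlgebraicClosure K ≃ₐ[K] AlgebraicClosure K) (hg : ∀ x ∈ F, g x = x) :
    letI := alg h
    M ≃ₐ[F] M :=
  letI := alg h
  { AlgEquiv.restrictNormalHom M g with
    commutes' := by
      intro r
      apply Subtype.ext
      exact (AlgEquiv.restrictNormal_commutes g M _).trans (hg r r.2) }

theorem res_coe {F M : IntermediateField K (AlgebraicClosure K)} [Normal K M] (h : F ≤ M)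
    (g : AlgebraicClosure K ≃ₐ[K] AlgebraicClosure K) (hg : ∀ x ∈ F, g x = x) (x : M) :
    letI := alg h
    ((res h g hg x : M) : AlgebraicClosure K) = g x :=
  AlgEquiv.restrictNormal_commutes g M x

theorem fix_g₀ (hT : Tw χ η F g₀) : ∀ x ∈ F 0, g₀ x = x := by
  rw [hT.cut, hT.zero]
  exact ⟨hT.g₀χ, rfl⟩

/-- powers of the restriction -/
theorem res_pow {F M : IntermediateField K (AlgebraicClosure K)} [Normal K M] (h : F ≤ M)
    (g : AlgebraicClosure K ≃ₐ[K] AlgebraicClosure K) (hg : ∀ x ∈ F, g x = x) (i : ℕ) (x : M) :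
    letI := alg h
    (((res h g hg ^ i) x : M) : AlgebraicClosure K) = (g ^ i) x := by
  letI := alg h
  induction i generalizing x with
  | zero => simp
  | succ i ih =>
    rw [pow_succ, pow_succ, AlgEquiv.mul_apply, AlgEquiv.mul_apply, ih, res_coe]

/-- the restriction of `g₀` generates `Gal(F m/F 0)` -/
theorem res_gen (hT : Tw χ η F g₀) (m : ℕ) :
    letI := alg (tw_le hT m)
    ∀ h : F m ≃ₐ[F 0] F m, h ∈ Subgroup.zpowers (res (tw_le hT m) g₀ (fix_g₀ hT)) := by
  letI := alg (tw_le hT m)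
  haveI : IsScalarTower K (F 0) (F m) := IsScalarTower.of_algebraMap_eq (fun _ => rfl)
  haveI : Normal K (F m) := inferInstance
  intro h
  obtain ⟨g, hg⟩ := AlgEquiv.restrictNormalHom_surjective (F := K) (K₁ := F m) (AlgebraicClosure K)
    (AlgEquiv.restrictScalars K h)
  have hgx : ∀ x : F m, g x = (h x : AlgebraicClosure K) := by
    intro x
    rw [← AlgEquiv.restrictNormalHom_apply, hg]
    rfl
  have h0 : ∀ x ∈ F 0, g x = x := by
    intro x hx
    have h1 := hgx (algebraMap (F 0) (F m) ⟨x, hx⟩)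
    rw [AlgEquiv.commutes] at h1
    exact h1
  have h2 : χ g = 1 := ((hT.cut 0 g).1 h0).1
  obtain ⟨i, hi⟩ := hT.g₀η m g h2
  have h3 : ∀ x ∈ F m, (g * (g₀ ^ i)⁻¹) x = x := by
    rw [hT.cut]
    constructor
    · rw [map_mul, map_inv, map_pow, h2, hT.g₀χ]
      simp
    · rw [map_mul, map_inv, map_pow, hi, mul_inv_cancel]
  rw [Subgroup.mem_zpowers_iff]
  refine ⟨i, ?_⟩
  rw [zpow_natCast]
  apply AlgEquiv.ext
  intro x
  apply Subtype.ext
  rw [res_pow, ← hgx]
  have h4 : (g₀ ^ i) (x : AlgebraicClosure K) ∈ F m := by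
    rw [← res_pow (tw_le hT m) g₀ (fix_g₀ hT)]
    exact Subtype.property _
  have h5 := h3 _ h4
  rw [AlgEquiv.mul_apply, ← AlgEquiv.mul_apply (g₀ ^ i)⁻¹, inv_mul_cancel, AlgEquiv.one_apply] at h5
  exact h5.symm

/-- the degree is a power of `p` -/
theorem res_deg (hT : Tw χ η F g₀) (m : ℕ) :
    letI := alg (tw_le hT m)
    IsGalois (F 0) (F m) ∧ ∃ l : ℕ, finrank (F 0) (F m) = p ^ l := by
  letI := alg (tw_le hT m)
  haveI : IsScalarTower K (F 0) (F m) := IsScalarTower.of_algebraMap_eq (fun _ => rfl)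
  haveI hG : IsGalois (F 0) (F m) := IsGalois.tower_top_of_isGalois K (F 0) (F m)
  haveI : FiniteDimensional (F 0) (F m) := inferInstance
  refine ⟨hG, ?_⟩
  have hη : ∀ m g, η m g ^ p ^ m = 1 := by
    intro m g
    induction m with
    | zero => rw [hT.zero, pow_zero, pow_one]; rfl
    | succ m ih =>
      have h1 : η (m + 1) g ^ p = η m g := DFunLike.congr_fun (hT.succ m) g
      rw [pow_succ', pow_mul, h1, ih]
  have h1 : (res (tw_le hT m) g₀ (fix_g₀ hT)) ^ p ^ m = 1 := by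
    apply AlgEquiv.ext
    intro x
    apply Subtype.ext
    rw [res_pow]
    have h2 : ∀ x ∈ F m, (g₀ ^ p ^ m) x = x := by
      rw [hT.cut]
      constructor
      · rw [map_pow, hT.g₀χ, one_pow]
      · rw [map_pow]
        exact hη m g₀
    exact h2 x x.2
  have h3 := orderOf_dvd_of_pow_eq_one h1
  obtain ⟨l, -, hl⟩ := (Nat.dvd_prime_pow hp.out).1 h3
  refine ⟨l, ?_⟩
  rw [← IsGalois.card_aut_eq_finrank, ← hl]
  exact (orderOf_eq_card_of_forall_mem_zpowers (res_gen hT m)).symm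

/-- the primes above `p` -/
def Rp (p : ℕ) (F : Type) [Field F] [NumberField F] : Set (HeightOneSpectrum (𝓞 F)) :=
  {w | (p : 𝓞 F) ∈ w.asIdeal}

theorem Rp_fin (F : Type) [Field F] [NumberField F] : (Rp p F).Finite := by
  have h0 : Ideal.span {(p : 𝓞 F)} ≠ 0 := by
    rw [Ne, Ideal.zero_eq_bot, Ideal.span_singleton_eq_bot]
    exact_mod_cast hp.out.ne_zero
  refine (Ideal.finite_factors h0).subset ?_
  intro w hw
  change w.asIdeal ∣ _
  rw [Ideal.dvd_span_singleton]
  exact hw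

/-- a prime with `Uni` is not ramified -/
theorem uni_ord (hT : Tw χ η F g₀) (m : ℕ) (W : HeightOneSpectrum (𝓞 (F m)))
    (h : Uni (F 0) (F m) W) :
    letI := alg (tw_le hT m)
    ∀ x : F 0, ordv W (algebraMap (F 0) (F m) x) = ordv (Pool.Agent.Helper40.RS.bel (F 0) W) x := by
  letI := alg (tw_le hT m)
  intro x
  obtain ⟨π, hπ, h1⟩ := h
  have h2 := Pool.Agent.Helper40.RD.ordW W (⟨π, hπ⟩ : F 0)
  have h3 : algebraMap (F 0) (F m) ⟨π, hπ⟩ = π := Subtype.ext rfl
  rw [h3, h1] at h2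
  have h4 : ((Pool.Agent.Helper40.RS.bel (F 0) W).asIdeal.ramificationIdx' W.asIdeal : ℤ) = 1 := by
    have h5 := Int.eq_one_or_neg_one_of_mul_eq_one' h2.symm
    have h6 := Int.natCast_nonneg
      ((Pool.Agent.Helper40.RS.bel (F 0) W).asIdeal.ramificationIdx' W.asIdeal)
    omega
  rw [Pool.Agent.Helper40.RD.ordW, h4, one_mul]

theorem tow (hT : Tw χ η F g₀) (m : ℕ) :
    letI := alg (tw_le hT m)
    Tow p (F 0) (F m) (Rp p (F 0)) := by
  letI := alg (tw_le hT m)
  obtain ⟨h1, h2⟩ := res_deg hT m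
  refine ⟨h1, ⟨_, res_gen hT m⟩, h2, ?_⟩
  intro w hw
  obtain ⟨W, hW⟩ := Pool.Agent.Helper44.PB.ex_bel (L := F m) w
  refine ⟨W, fun x => ?_⟩
  rw [← hW]
  apply uni_ord hT m W
  apply hT.unr
  intro hpW
  apply hw
  rw [← hW]
  change (p : 𝓞 (F 0)) ∈ W.asIdeal.under (𝓞 (F 0))
  rw [Ideal.mem_under]
  simpa using hpW

/-- **S_GEN** -/
theorem s_gen : S_GEN := by
  intro p _ K _ _ χ η F _ _ g₀ hT
  classical
  obtain ⟨N, hN⟩ := gen p (F 0) (Rp p (F 0)) (Rp_fin (F 0))
  refine ⟨N, fun m s hs1 hs2 => ?_⟩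
  letI := alg (tw_le hT m)
  have h1 := hN (F m) (tow hT m) (res (tw_le hT m) g₀ (fix_g₀ hT)) (res_gen hT m)
    (s.image Additive.toMul) ?_ ?_
  · rwa [Finset.card_image_of_injective _ (Equiv.injective _)] at h1
  · intro ε hε
    obtain ⟨u, hu, rfl⟩ := Finset.mem_image.1 hε
    obtain ⟨w, hw⟩ := hs1 u hu
    refine ⟨w.toMul, ?_⟩
    have h2 : ug (F m) g₀ u = u + p • w := by rw [← hw]; abel
    have h3 := congrArg (fun v => ((uF v.toMul : (F m)ˣ) : F m)) h2
    apply Subtype.ext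
    have h4 := congrArg Subtype.val h3
    rw [res_coe]
    rw [toMul_add, toMul_nsmul, uF_mul, uF_pow] at h4
    refine Eq.trans ?_ h4
    exact (AlgEquiv.restrictNormal_commutes g₀ (F m) _).symm
  · intro ε hε ε' hε' hne
    obtain ⟨u, hu, rfl⟩ := Finset.mem_image.1 hε
    obtain ⟨v, hv, rfl⟩ := Finset.mem_image.1 hε'
    rintro ⟨w, hw⟩
    apply hne
    have := hs2 u hu v hv ⟨Additive.ofMul w, ?_⟩
    · rw [this]
    · apply Additive.toMul.injective
      exact hw

end Pool.Agent.Helper31.TH
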