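import Pool.Agent.Helper31.TH.Tens
import Pool.Agent.Helper31.TH.Loc
import Pool.Agent.Helper17.TH.Defs

/-!
# Project TH (MP_fc6b1e_nt), II.5: linear algebra over `O`
-/

set_option autoImplicit false
set_option linter.unusedSectionVars false
set_option linter.style.haveILetI false

namespace Pool.Agent.Helper31.TH

open TensorProduct Pool.Agent.Helper51.SigLeo Pool.Agent.Helper17.TH

section pw

variable {p : ℕ} [Fact p.Prime] {A B : Type} [AddCommGroup A] [AddCommGroup B]

theorem pw_map (f : A →+ B) {k : ℕ} {a : A} (h : a ∈ pw A p k) : f a ∈ pw B p k := by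
  rw [mem_pw] at h ⊢
  obtain ⟨a', rfl⟩ := h
  exact ⟨f a', map_nsmul f _ _⟩

theorem pw_smul {R : Type} [Ring R] [Module R A] (r : R) {k : ℕ} {a : A} (h : a ∈ pw A p k) :
    r • a ∈ pw A p k := by
  rw [mem_pw] at h ⊢
  obtain ⟨a', rfl⟩ := h
  exact ⟨r • a', smul_comm _ _ _⟩

theorem pw_self (k : ℕ) (a : A) : p ^ k • a ∈ pw A p k := (mem_pw _ _).2 ⟨a, rfl⟩

theorem pw_le {k l : ℕ} (hkl : k ≤ l) {a : A} (h : a ∈ pw A p l) : a ∈ pw A p k := by
  rw [mem_pw] at h ⊢
  obtain ⟨a', rfl⟩ := h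
  refine ⟨p ^ (l - k) • a', ?_⟩
  rw [smul_smul, ← pow_add, Nat.add_sub_cancel' hkl]

/-- congruences modulo `p^k` -/
def Cg (p k : ℕ) (a b : A) : Prop := a - b ∈ pw A p k

theorem Cg.refl {k : ℕ} (a : A) : Cg p k a a := by unfold Cg; rw [sub_self]; exact zero_mem _

theorem Cg.symm {k : ℕ} {a b : A} (h : Cg p k a b) : Cg p k b a := by
  unfold Cg at *
  rw [← neg_sub]
  exact neg_mem h

theorem Cg.trans {k : ℕ} {a b c : A} (h : Cg p k a b) (h' : Cg p k b c) : Cg p k a c := by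
  unfold Cg at *
  rw [← sub_add_sub_cancel a b c]
  exact add_mem h h'

theorem Cg.add {k : ℕ} {a b c d : A} (h : Cg p k a b) (h' : Cg p k c d) :
    Cg p k (a + c) (b + d) := by
  unfold Cg at *
  rw [add_sub_add_comm]
  exact add_mem h h'

theorem Cg.sub {k : ℕ} {a b c d : A} (h : Cg p k a b) (h' : Cg p k c d) :
    Cg p k (a - c) (b - d) := by
  unfold Cg at *
  rw [sub_sub_sub_comm]
  exact sub_mem h h'

theorem Cg.map (f : A →+ B) {k : ℕ} {a b : A} (h : Cg p k a b) : Cg p k (f a) (f b) := by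
  unfold Cg at *
  rw [← map_sub]
  exact pw_map f h

theorem Cg.smul {R : Type} [Ring R] [Module R A] (r : R) {k : ℕ} {a b : A} (h : Cg p k a b) :
    Cg p k (r • a) (r • b) := by
  unfold Cg at *
  rw [← smul_sub]
  exact pw_smul r h

theorem Cg.nsmul (n : ℕ) {k : ℕ} {a b : A} (h : Cg p k a b) : Cg p k (n • a) (n • b) := by
  rw [← natCast_zsmul, ← natCast_zsmul]
  exact h.smul _

theorem Cg.sum {ι : Type} (s : Finset ι) {k : ℕ} {a b : ι → A} (h : ∀ i ∈ s, Cg p k (a i) (b i)) :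
    Cg p k (∑ i ∈ s, a i) (∑ i ∈ s, b i) := by
  unfold Cg at *
  rw [← Finset.sum_sub_distrib]
  exact sum_mem h

theorem Cg.mem {k : ℕ} {a b : A} (h : Cg p k a b) (hb : b ∈ pw A p k) : a ∈ pw A p k := by
  unfold Cg at h
  rw [← sub_add_cancel a b]
  exact add_mem h hb

theorem cg_zero {k : ℕ} {a : A} : Cg p k a 0 ↔ a ∈ pw A p k := by
  unfold Cg
  rw [sub_zero]

end pw

section ext

variable {O : Type} [CommRing O] {A B C : Type} [AddCommGroup A] [AddCommGroup B] [AddCommGroup C]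

theorem ext_comp (f : B →+ C) (g : A →+ B) (z : O ⊗[ℤ] A) :
    ext O (f.comp g) z = ext O f (ext O g z) := by
  induction z using TensorProduct.induction_on with
  | zero => simp
  | tmul o a => rfl
  | add x y hx hy => rw [map_add, map_add, map_add, hx, hy]

theorem ext_id (z : O ⊗[ℤ] A) : ext O (AddMonoidHom.id A) z = z := by
  induction z using TensorProduct.induction_on with
  | zero => simp
  | tmul o a => rfl
  | add x y hx hy => rw [map_add, hx, hy]

theorem exO_eq (f : A →+ A) : exO O f = ext O f := rfl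

/-- the `O`-linear extension of a homomorphism to `O` -/
noncomputable def lft (f : A →+ O) : O ⊗[ℤ] A →ₗ[O] O := LinearMap.liftBaseChange O f.toIntLinearMap

theorem lft_tmul (f : A →+ O) (o : O) (a : A) : lft f (o ⊗ₜ[ℤ] a) = o * f a := by
  unfold lft
  rw [LinearMap.liftBaseChange_tmul]
  rfl

theorem lft_ext (f : B →+ O) (g : A →+ B) (z : O ⊗[ℤ] A) : lft f (ext O g z) = lft (f.comp g) z := by
  induction z using TensorProduct.induction_on with
  | zero => simp
  | tmul o a => rw [ext_tmul, lft_tmul, lft_tmul]; rfl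
  | add x y hx hy => rw [map_add, map_add, map_add, hx, hy]

variable {k : Type} [NormedField k] (j : O →+* k)

/-- the value of the extension of a homomorphism `A → k` -/
noncomputable def ev (f : A →+ k) (z : O ⊗[ℤ] A) : k := extHom f (tm j A z)

theorem ev_tmul (f : A →+ k) (o : O) (a : A) : ev j f (o ⊗ₜ[ℤ] a) = j o * f a := by
  have h1 : tm j A (o ⊗ₜ[ℤ] a) = j o ⊗ₜ[ℤ] a := rfl
  unfold ev
  rw [h1]
  unfold extHom
  rw [LinearMap.liftBaseChange_tmul]
  rfl

theorem ev_add (f : A →+ k) (z w : O ⊗[ℤ] A) : ev j f (z + w) = ev j f z + ev j f w := by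
  unfold ev
  rw [map_add, map_add]

theorem ev_zero (f : A →+ k) : ev j f (0 : O ⊗[ℤ] A) = 0 := by
  unfold ev
  rw [map_zero, map_zero]

theorem ev_neg (f : A →+ k) (z : O ⊗[ℤ] A) : ev j f (-z) = - ev j f z := by
  unfold ev
  rw [map_neg, map_neg]

theorem ev_sub (f : A →+ k) (z w : O ⊗[ℤ] A) : ev j f (z - w) = ev j f z - ev j f w := by
  unfold ev
  rw [map_sub, map_sub]

theorem ev_sum {ι : Type} (s : Finset ι) (f : A →+ k) (z : ι → O ⊗[ℤ] A) :
    ev j f (∑ i ∈ s, z i) = ∑ i ∈ s, ev j f (z i) := by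
  unfold ev
  rw [map_sum, map_sum]

theorem ev_smul (f : A →+ k) (o : O) (z : O ⊗[ℤ] A) : ev j f (o • z) = j o * ev j f z := by
  induction z using TensorProduct.induction_on with
  | zero => rw [smul_zero, ev_zero, mul_zero]
  | tmul o' a => rw [TensorProduct.smul_tmul', ev_tmul, ev_tmul, smul_eq_mul, map_mul, mul_assoc]
  | add x y hx hy => rw [smul_add, ev_add, ev_add, hx, hy, mul_add]

theorem ev_nsmul (f : A →+ k) (n : ℕ) (z : O ⊗[ℤ] A) : ev j f (n • z) = n * ev j f z := by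
  unfold ev
  rw [map_nsmul, map_nsmul, nsmul_eq_mul]

theorem ev_ext (f : B →+ k) (g : A →+ B) (z : O ⊗[ℤ] A) :
    ev j f (ext O g z) = ev j (f.comp g) z := by
  induction z using TensorProduct.induction_on with
  | zero => rw [map_zero, ev_zero, ev_zero]
  | tmul o a => rw [ext_tmul, ev_tmul, ev_tmul]; rfl
  | add x y hx hy => rw [map_add, ev_add, ev_add, hx, hy]

/-- `lft` followed by `j` -/
theorem ev_lft (f : A →+ O) (z : O ⊗[ℤ] A) :
    ev j ((j : O →+ k).comp f) z = j (lft f z) := by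
  induction z using TensorProduct.induction_on with
  | zero => rw [ev_zero, map_zero, map_zero]
  | tmul o a => rw [ev_tmul, lft_tmul, map_mul]; rfl
  | add x y hx hy => rw [ev_add, map_add, map_add, hx, hy]

/-- bounds -/
theorem ev_bd [IsUltrametricDist k] (f : A →+ k) {D C : ℝ} (hD : ∀ o, ‖j o‖ ≤ D) (hD0 : 0 ≤ D)
    (hC0 : 0 ≤ C) (hC : ∀ a, ‖f a‖ ≤ C) (z : O ⊗[ℤ] A) : ‖ev j f z‖ ≤ D * C := by
  induction z using TensorProduct.induction_on with
  | zero => rw [ev_zero, norm_zero]; positivity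
  | tmul o a =>
    rw [ev_tmul, norm_mul]
    exact mul_le_mul (hD o) (hC a) (norm_nonneg _) hD0
  | add x y hx hy =>
    rw [ev_add]
    exact (IsUltrametricDist.norm_add_le_max _ _).trans (max_le hx hy)

end ext

section eig

variable {O : Type} [CommRing O] {A : Type} [AddCommGroup A] {G : Type} [Group G] [Fintype G]
  (act : G → (A →+ A)) (hact : ∀ g h, act (g * h) = (act g).comp (act h)) (c : G →* O)

/-- the projector to the eigenspace, up to a factor -/
noncomputable def pj (z : O ⊗[ℤ] A) : O ⊗[ℤ] A := ∑ h : G, c h⁻¹ • ext O (act h) z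

include hact in
theorem pj_eig (g : G) (z : O ⊗[ℤ] A) : ext O (act g) (pj act c z) = c g • pj act c z := by
  unfold pj
  rw [map_sum, Finset.smul_sum, ← Equiv.sum_comp (Equiv.mulLeft g)
    fun h => c g • (c h⁻¹ • ext O (act h) z)]
  refine Finset.sum_congr rfl fun h _ => ?_
  rw [map_smul, ← ext_comp, ← hact, smul_smul, Equiv.coe_mulLeft, ← map_mul, mul_inv_rev,
    map_mul c g, mul_comm (c g), ← map_mul, inv_mul_cancel_right]

theorem pj_cg {p : ℕ} [Fact p.Prime] {k : ℕ} (z : O ⊗[ℤ] A) (h : ∀ g, Cg p k (ext O (act g) z) (c g • z)) :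
    Cg p k (pj act c z) (Fintype.card G • z) := by
  have h1 : Fintype.card G • z = ∑ h : G, c h⁻¹ • (c h • z) := by
    rw [Finset.sum_congr rfl fun h _ => by
      rw [smul_smul, ← map_mul, inv_mul_cancel, map_one, one_smul]]
    simp
  rw [h1]
  exact Cg.sum _ fun g _ => (h g).smul _

theorem pj_cg' {p : ℕ} [Fact p.Prime] {k : ℕ} (z w : O ⊗[ℤ] A) (h : Cg p k z w) :
    Cg p k (pj act c z) (pj act c w) :=
  Cg.sum _ fun g _ => (h.map (ext O (act g)).toAddMonoidHom).smul _

theorem pj_nsmul (n : ℕ) (z : O ⊗[ℤ] A) : pj act c (n • z) = n • pj act c z := by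
  unfold pj
  rw [Finset.smul_sum]
  refine Finset.sum_congr rfl fun g _ => ?_
  rw [map_nsmul, smul_comm]

/-- an exact eigenvector -/
theorem pj_self (z : O ⊗[ℤ] A) (h : ∀ g, ext O (act g) z = c g • z) :
    pj act c z = Fintype.card G • z := by
  unfold pj
  rw [Finset.sum_congr rfl fun g _ => by
      rw [h, smul_smul, ← map_mul, inv_mul_cancel, map_one, one_smul]]
  simp

/-- bounds -/
theorem pj_bd {k : Type} [NormedField k] [IsUltrametricDist k] (j : O →+* k) (f : A →+ k) {D δ : ℝ}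
    (hD : ∀ o, ‖j o‖ ≤ D) (hD0 : 0 ≤ D) (hδ : 0 ≤ δ) (z : O ⊗[ℤ] A)
    (h : ∀ g, ‖ev j (f.comp (act g)) z‖ ≤ δ) : ‖ev j f (pj act c z)‖ ≤ D * δ := by
  unfold pj
  rw [ev_sum]
  refine IsUltrametricDist.norm_sum_le_of_forall_le_of_nonneg (by positivity) ?_
  intro g _
  rw [ev_smul, norm_mul, ev_ext]
  exact mul_le_mul (hD _) (h g) (norm_nonneg _) hD0

end eig

end Pool.Agent.Helper31.TH
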