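import Pool.Agent.Helper94.RP.RAT
import Pool.Agent.Helper31.TH.Coef

/-!
# Project TH (MP_fc6b1e_nt), II.5: approximation of the vectors with vanishing logarithms
-/

set_option autoImplicit false
set_option linter.unusedSectionVars false
set_option linter.style.haveILetI false

namespace Pool.Agent.Helper31.TH

open TensorProduct NumberField Module Filter Topology Pool.Agent.Helper51.SigLeo
open Pool.Agent.Helper51.RP Pool.Agent.Helper17.TH

variable {p : ℕ} [hp : Fact p.Prime]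

theorem ne_hom (F A : Type) [Field F] [Field A] [Algebra F A] [IsAlgClosed A] :
    Nonempty (AlgebraicClosure F →+* A) :=
  ⟨(IsAlgClosed.lift (R := F) (S := AlgebraicClosure F) (M := A)).toRingHom⟩

theorem ne_emb (p : ℕ) [Fact p.Prime] : Nonempty (AlgebraicClosure ℚ →+* ℂ_[p]) := ne_hom ℚ ℂ_[p]

/-- a homomorphism from a finitely generated group to `ℚ_p` is bounded -/
theorem fg_bdd {A : Type} [AddCommGroup A] [Module.Finite ℤ A] (f : A →+ ℚ_[p]) :
    ∃ e : ℕ, ∀ a, ‖f a‖ ≤ (p : ℝ) ^ e := by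
  have hp1 : (1 : ℝ) < p := by exact_mod_cast hp.out.one_lt
  obtain ⟨s, hs⟩ := (inferInstance : Module.Finite ℤ A).fg_top
  have h1 : ∀ a : A, ∃ e : ℕ, ‖f a‖ ≤ (p : ℝ) ^ e := by
    intro a
    obtain ⟨e, he⟩ := pow_unbounded_of_one_lt ‖f a‖ hp1
    exact ⟨e, he.le⟩
  choose e he using h1
  refine ⟨s.sup e, fun a => ?_⟩
  have h2 : a ∈ Submodule.span ℤ (s : Set A) := by rw [hs]; trivial
  induction h2 using Submodule.span_induction with
  | mem x hx =>
    have h3 : e x ≤ s.sup e := Finset.le_sup hx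
    exact (he x).trans (pow_le_pow_right₀ hp1.le h3)
  | zero => rw [map_zero, norm_zero]; positivity
  | add x y hx hy h1 h2 =>
    rw [map_add]
    exact (IsUltrametricDist.norm_add_le_max _ _).trans (max_le h1 h2)
  | smul n x hx h1 =>
    rw [map_zsmul, ← Int.cast_smul_eq_zsmul ℚ_[p], smul_eq_mul, norm_mul]
    calc ‖(n : ℚ_[p])‖ * ‖f x‖ ≤ 1 * ‖f x‖ :=
          mul_le_mul_of_nonneg_right (Padic.norm_int_le_one n) (norm_nonneg _)
      _ ≤ _ := by rw [one_mul]; exact h1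

/-- the integral multiple of a bounded homomorphism -/
noncomputable def ihom {A : Type} [AddCommGroup A] (f : A →+ ℚ_[p]) (e : ℕ)
    (he : ∀ a, ‖f a‖ ≤ (p : ℝ) ^ e) : A →+ ℤ_[p] where
  toFun a := ⟨(p : ℚ_[p]) ^ e * f a, by
    have hp0 : (0 : ℝ) < p := by exact_mod_cast hp.out.pos
    rw [norm_mul, norm_pow, Padic.norm_p]
    calc (p : ℝ)⁻¹ ^ e * ‖f a‖ ≤ (p : ℝ)⁻¹ ^ e * (p : ℝ) ^ e :=
          mul_le_mul_of_nonneg_left (he a) (by positivity)
      _ = 1 := by rw [← mul_pow, inv_mul_cancel₀ hp0.ne', one_pow]⟩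
  map_zero' := by
    apply Subtype.ext
    simp
  map_add' x y := by
    apply Subtype.ext
    simp [mul_add]

theorem ihom_coe {A : Type} [AddCommGroup A] (f : A →+ ℚ_[p]) (e : ℕ)
    (he : ∀ a, ‖f a‖ ≤ (p : ℝ) ^ e) (a : A) :
    ((ihom f e he a : ℤ_[p]) : ℚ_[p]) = (p : ℚ_[p]) ^ e * f a := rfl

variable {O : Type} [CommRing O] [Algebra ℤ_[p] O] {ι : Type} [Fintype ι]
  (b : Module.Basis ι ℤ_[p] O) (j : O →+* ℂ_[p]) (hj : Function.Injective j)
  (hja : ∀ x : ℤ_[p], j (algebraMap ℤ_[p] O x) = algebraMap ℚ_[p] ℂ_[p] x)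

include hj hja in
/-- if the extension of `f` vanishes at `z` then the values of `f` at the components modulo `p^N` are small -/
theorem small {A : Type} [AddCommGroup A] [Module.Finite ℤ A] (f : A →+ ℚ_[p]) :
    ∃ e : ℕ, ∀ z : O ⊗[ℤ] A,
      ev j (((algebraMap ℚ_[p] ℂ_[p] : ℚ_[p] →+* ℂ_[p]) : ℚ_[p] →+ ℂ_[p]).comp f) z = 0 →
      ∀ (N : ℕ) (u : ι → A) (y : O ⊗[ℤ] A), z = (∑ i, b i ⊗ₜ[ℤ] u i) + p ^ N • y →
      ∀ i, ‖f (u i)‖ ≤ (p : ℝ) ^ e * (1 / p : ℝ) ^ N := by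
  have hp0 : (0 : ℝ) < p := by exact_mod_cast hp.out.pos
  obtain ⟨e, he⟩ := fg_bdd f
  refine ⟨e, fun z hz N u y hzu i => ?_⟩
  set f' := ihom f e he with hf'
  set F' : A →+ O := ((algebraMap ℤ_[p] O : ℤ_[p] →+* O) : ℤ_[p] →+ O).comp f' with hF'
  have h1 : ∀ w : O ⊗[ℤ] A, ev j ((j : O →+ ℂ_[p]).comp F') w = (p : ℂ_[p]) ^ e *
      ev j (((algebraMap ℚ_[p] ℂ_[p] : ℚ_[p] →+* ℂ_[p]) : ℚ_[p] →+ ℂ_[p]).comp f) w := by
    intro w
    induction w using TensorProduct.induction_on with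
    | zero => rw [ev_zero, ev_zero, mul_zero]
    | tmul o a =>
      rw [ev_tmul, ev_tmul]
      have h2 : ((j : O →+ ℂ_[p]).comp F') a = (p : ℂ_[p]) ^ e * algebraMap ℚ_[p] ℂ_[p] (f a) := by
        change j (algebraMap ℤ_[p] O (f' a)) = _
        rw [hja, hf', ihom_coe, map_mul, map_pow, map_natCast]
      rw [h2]
      change _ = (p : ℂ_[p]) ^ e * (j o * algebraMap ℚ_[p] ℂ_[p] (f a))
      ring
    | add x y hx hy => rw [ev_add, ev_add, hx, hy, mul_add]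
  have h2 : lft F' z = 0 := by
    apply hj
    rw [← ev_lft, h1, hz, mul_zero, map_zero]
  rw [hzu, map_add, map_sum, map_nsmul] at h2
  have h3 := congrArg (fun t => b.repr t i) h2
  simp only [lft_tmul] at h3
  have h4 : ∀ l, b l * F' (u l) = f' (u l) • b l := by
    intro l
    rw [Algebra.smul_def, mul_comm]
    rfl
  simp only [h4] at h3
  rw [map_add, Finsupp.add_apply, b.repr_sum_self, map_nsmul, map_zero, Finsupp.smul_apply,
    Finsupp.zero_apply] at h3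
  have h5 : f' (u i) = - ((p : ℤ_[p]) ^ N * b.repr (lft F' y) i) := by
    rw [nsmul_eq_mul] at h3
    push_cast at h3
    linear_combination h3
  have h6 : ‖f' (u i)‖ ≤ (1 / p : ℝ) ^ N := by
    rw [h5, norm_neg, norm_mul, norm_pow, PadicInt.norm_p, one_div]
    calc (p : ℝ)⁻¹ ^ N * _ ≤ (p : ℝ)⁻¹ ^ N * 1 :=
          mul_le_mul_of_nonneg_left (PadicInt.norm_le_one _) (by positivity)
      _ = _ := mul_one _
  rw [PadicInt.norm_def, hf', ihom_coe, norm_mul, norm_pow, Padic.norm_p] at h6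
  calc ‖f (u i)‖ = (p : ℝ) ^ e * ((p : ℝ)⁻¹ ^ e * ‖f (u i)‖) := by
        rw [← mul_assoc, ← mul_pow, mul_inv_cancel₀ hp0.ne', one_pow, one_mul]
    _ ≤ _ := mul_le_mul_of_nonneg_left h6 (by positivity)

include hj hja in
/-- **Approximation.** -/
theorem appr (Lg : IwasawaLog p ℂ_[p]) (M : Type) [Field M] [NumberField M] (T : Set (M →+* ℂ_[p]))
    (hT : PlaceClosed T) (z : O ⊗[ℤ] Additive (𝓞 M)ˣ)
    (hz : ∀ τ ∈ T, ev j (logUnits Lg τ) z = 0) (k : ℕ) :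
    ∃ ε : ι → Additive (𝓞 M)ˣ, Cg p k z (∑ i, b i ⊗ₜ[ℤ] ε i) ∧
      ∀ i, ∃ v : ℕ → Additive (𝓞 M)ˣ, ∀ τ ∈ T,
        Tendsto (fun N => logUnits Lg τ (ε i + p ^ k • v N)) atTop (𝓝 0) := by
  have hp0 : (0 : ℝ) < p := by exact_mod_cast hp.out.pos
  have hp1 : (1 : ℝ) < p := by exact_mod_cast hp.out.one_lt
  haveI : Module.Finite ℤ (Additive (𝓞 M)ˣ) := inferInstance
  obtain ⟨n, f, hf1, hf2⟩ := Pool.Agent.Helper94.RP.s_rat p ℂ_[p] (ne_emb p) Lg M T hT
  have hz1 : ∀ l, ev j (((algebraMap ℚ_[p] ℂ_[p] : ℚ_[p] →+* ℂ_[p]) : ℚ_[p] →+ ℂ_[p]).comp (f l)) z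
      = 0 := hf1 _ hz
  choose u y hu using fun N => repr_mod b N z
  choose e he using fun l => small b j hj hja (f l)
  have h1 : ∀ N i, ∃ v : Additive (𝓞 M)ˣ, u (k + N) i = u k i + p ^ k • v := by
    intro N
    have h2 : ∑ i, b i ⊗ₜ[ℤ] (u (k + N) i - u k i) = p ^ k • (y k - p ^ N • y (k + N)) := by
      have h3 : (∑ i, b i ⊗ₜ[ℤ] u (k + N) i) + p ^ (k + N) • y (k + N) =
          (∑ i, b i ⊗ₜ[ℤ] u k i) + p ^ k • y k := by rw [← hu, ← hu]
      simp only [TensorProduct.tmul_sub, Finset.sum_sub_distrib]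
      rw [smul_sub, smul_smul, ← pow_add, sub_eq_sub_iff_add_eq_add, h3, add_comm]
    intro i
    obtain ⟨v, hv⟩ := div_mod b k _ _ h2 i
    exact ⟨v, by rw [← hv]; abel⟩
  choose v hv using h1
  refine ⟨u k, ?_, fun i => ⟨fun N => v N i, fun τ hτ => ?_⟩⟩
  · unfold Cg
    rw [mem_pw]
    refine ⟨y k, ?_⟩
    conv_lhs => rw [hu k]
    rw [add_sub_cancel_left]
  · simp only [← hv]
    obtain ⟨c, hc⟩ := hf2 τ hτ
    simp only [hc]
    rw [← Finset.sum_const_zero (s := (Finset.univ : Finset (Fin n)))]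
    refine tendsto_finsetSum _ fun l _ => ?_
    rw [← zero_smul ℚ_[p] (c l)]
    refine Tendsto.smul_const ?_ _
    rw [tendsto_zero_iff_norm_tendsto_zero]
    refine squeeze_zero (fun _ => norm_nonneg _)
      (fun N => he l z (hz1 l) (k + N) (u (k + N)) (y (k + N)) (hu _) i) ?_
    have h5 : Tendsto (fun N : ℕ => (p : ℝ) ^ e l * (1 / p : ℝ) ^ (k + N)) atTop
        (𝓝 ((p : ℝ) ^ e l * 0)) := by
      refine Tendsto.const_mul _ ?_
      have h6 : Tendsto (fun N : ℕ => (1 / p : ℝ) ^ N) atTop (𝓝 0) :=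
        tendsto_pow_atTop_nhds_zero_of_lt_one (by positivity) (by
          rw [div_lt_one hp0]; exact hp1)
      exact h6.comp (tendsto_atTop_mono (fun N => Nat.le_add_left N k) tendsto_id)
    rwa [mul_zero] at h5

end Pool.Agent.Helper31.TH
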