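import Pool.Agent.Helper31.TH.Gen
import Pool.Agent.Helper31.TH.Coef

/-!
# Project TH (MP_fc6b1e_nt), II.5: the multiplicative groups of the fields
-/

set_option autoImplicit false
set_option linter.unusedSectionVars false
set_option linter.style.haveILetI false

namespace Pool.Agent.Helper31.TH

open TensorProduct NumberField Module IsDedekindDomain Pool.Agent.Helper51.SigLeo
open Pool.Agent.Helper51.RP Pool.Agent.Helper17.TH

variable {p : ℕ} [hp : Fact p.Prime]

section homs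

variable {F F' F'' : Type} [Field F] [Field F'] [Field F'']

/-- a homomorphism of fields, on the multiplicative groups -/
noncomputable def ag (σ : F →+* F') : Additive Fˣ →+ Additive F'ˣ :=
  MonoidHom.toAdditive (Units.map (σ : F →* F'))

theorem ag_comp (σ : F' →+* F'') (τ : F →+* F') : ag (σ.comp τ) = (ag σ).comp (ag τ) := rfl

/-- the units as elements of the field -/
noncomputable def au (F : Type) [Field F] : Additive (𝓞 F)ˣ →+ Additive Fˣ :=
  MonoidHom.toAdditive (Units.map (algebraMap (𝓞 F) F : 𝓞 F →* F))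

theorem au_apply (u : Additive (𝓞 F)ˣ) : (au F u).toMul = uF u.toMul := rfl

theorem au_unitsHom {K : Type} [Field K] [Algebra K F] (h : F ≃ₐ[K] F) :
    (au F).comp (unitsHom h) = (ag (h : F →+* F)).comp (au F) := by
  apply AddMonoidHom.ext
  intro u
  apply Additive.toMul.injective
  apply Units.ext
  rfl

/-- the logarithm -/
noncomputable def lF (L : IwasawaLog p ℂ_[p]) (τ : F →+* ℂ_[p]) : Additive Fˣ →+ ℂ_[p] where
  toFun x := L.toFun (Units.map (τ : F →* ℂ_[p]) x.toMul)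
  map_zero' := by
    rw [toMul_zero, map_one]
    exact Pool.Agent.Helper39.RP.log_one L
  map_add' x y := by
    rw [toMul_add, map_mul]
    exact L.map_mul _ _

theorem lF_apply (L : IwasawaLog p ℂ_[p]) (τ : F →+* ℂ_[p]) (x : Additive Fˣ) :
    lF L τ x = L.toFun (Units.map (τ : F →* ℂ_[p]) x.toMul) := rfl

theorem lF_au (L : IwasawaLog p ℂ_[p]) (τ : F →+* ℂ_[p]) : (lF L τ).comp (au F) = logUnits L τ := by
  apply AddMonoidHom.ext
  intro u
  rfl

theorem lF_ag (L : IwasawaLog p ℂ_[p]) (τ : F' →+* ℂ_[p]) (σ : F →+* F') :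
    (lF L τ).comp (ag σ) = lF L (τ.comp σ) := by
  apply AddMonoidHom.ext
  intro u
  rfl

end homs

section val

variable {F : Type} [Field F] [NumberField F]

/-- the valuation with values in `O` -/
noncomputable def oO (O : Type) [CommRing O] (w : HeightOneSpectrum (𝓞 F)) : Additive Fˣ →+ O where
  toFun x := ((ordv w (x.toMul : F) : ℤ) : O)
  map_zero' := by rw [toMul_zero, ov_one]; simp
  map_add' x y := by rw [toMul_add, ov_mul]; push_cast; rfl

theorem oO_apply (O : Type) [CommRing O] (w : HeightOneSpectrum (𝓞 F)) (x : Additive Fˣ) :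
    oO O w x = ((ordv w (x.toMul : F) : ℤ) : O) := rfl

/-- **the class number**: elements with valuations divisible by `p^k` are units, up to `p^k`-th powers and a factor -/
theorem cls (F : Type) [Field F] [NumberField F] : ∃ h : ℕ, h ≠ 0 ∧ ∀ (q : ℕ) (_ : q ≠ 0) (y : Fˣ),
    (∀ w : HeightOneSpectrum (𝓞 F), (q : ℤ) ∣ ordv w (y : F)) →
    ∃ (u : (𝓞 F)ˣ) (a : Fˣ), y ^ h = uF u * a ^ q := by
  classical
  refine ⟨Fintype.card (ClassGroup (𝓞 F)), Fintype.card_ne_zero, fun q hq y hy => ?_⟩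
  set h := Fintype.card (ClassGroup (𝓞 F)) with hh
  obtain ⟨c, J, z, hc0, hz0, hc, hJ⟩ := Pool.Agent.Helper19.RD.exists_int q hq y hy
  have hJ0 : J ≠ ⊥ := by
    rintro rfl
    rw [← Ideal.zero_eq_bot, zero_pow hq, Ideal.zero_eq_bot, Ideal.span_singleton_eq_bot] at hJ
    exact hc0 hJ
  have hprin : (J ^ h).IsPrincipal := by
    have h1 : (ClassGroup.mk0 ⟨J, mem_nonZeroDivisors_of_ne_zero hJ0⟩ : ClassGroup (𝓞 F)) ^ h = 1 :=
      pow_card_eq_one
    rw [← map_pow, ClassGroup.mk0_eq_one_iff] at h1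
    exact h1
  obtain ⟨a, ha⟩ := hprin
  have ha' : J ^ h = Ideal.span {a} := ha
  have h2 : Ideal.span {c ^ h} = Ideal.span {a ^ q} := by
    rw [← Ideal.span_singleton_pow, ← Ideal.span_singleton_pow, ← ha', hJ, ← pow_mul, ← pow_mul,
      mul_comm]
  rw [Ideal.span_singleton_eq_span_singleton] at h2
  obtain ⟨u, hu⟩ := h2
  have ha0 : a ≠ 0 := by
    rintro rfl
    rw [zero_pow hq] at hu
    rcases mul_eq_zero.1 hu with h3 | h3
    · exact hc0 (pow_eq_zero_iff Fintype.card_ne_zero |>.1 h3)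
    · exact u.ne_zero h3
  have ha1 : (algebraMap (𝓞 F) F a) ≠ 0 := by
    rw [Ne, FaithfulSMul.algebraMap_eq_zero_iff]
    exact ha0
  refine ⟨u⁻¹, Units.mk0 (algebraMap (𝓞 F) F a) ha1 / (Units.mk0 z hz0) ^ h, ?_⟩
  rw [uF_inv, eq_inv_mul_iff_mul_eq, div_pow, eq_div_iff_mul_eq']
  apply Units.ext
  have h4 := congrArg (algebraMap (𝓞 F) F) hu
  rw [map_mul, map_pow, map_pow] at h4
  have h5 : algebraMap (𝓞 F) F c = (y : F) * z ^ q := hc
  rw [h5] at h4
  push_cast
  rw [Units.val_mk0, Units.val_mk0, ← h4, uF_val]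
  ring

variable {O : Type} [CommRing O] [Algebra ℤ_[p] O] {ι : Type} [Fintype ι]
  (b : Module.Basis ι ℤ_[p] O)

/-- valuations of the components -/
theorem ord_comp (k : ℕ) (f : ι → ℤ) (o : O) (h : ∑ i, b i * (f i : O) = p ^ k • o) (i : ι) :
    ((p ^ k : ℕ) : ℤ) ∣ f i := by
  have h1 : ∀ l, b l * (f l : O) = ((f l : ℤ) : ℤ_[p]) • b l := by
    intro l
    rw [Algebra.smul_def, mul_comm, map_intCast]
  simp only [h1] at h
  have h3 : b.repr _ i = b.repr _ i := congrArg (fun t => b.repr t i) h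
  rw [b.repr_sum_self, map_nsmul, Finsupp.smul_apply, nsmul_eq_mul] at h3
  have h4 : (p : ℤ_[p]) ^ k ∣ ((f i : ℤ) : ℤ_[p]) := ⟨b.repr o i, by rw [h3]; push_cast; rfl⟩
  have h5 := (PadicInt.pow_p_dvd_int_iff k (f i)).1 h4
  exact_mod_cast h5

/-- **the class number**, in `O ⊗ Fˣ` -/
theorem cls_O (b : Module.Basis ι ℤ_[p] O) (F : Type) [Field F] [NumberField F] : ∃ h : ℕ, h ≠ 0 ∧ ∀ (k : ℕ)
    (x : O ⊗[ℤ] Additive Fˣ), (∀ w : HeightOneSpectrum (𝓞 F), ∃ o : O, lft (oO O w) x = p ^ k • o) →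
    ∃ u : O ⊗[ℤ] Additive (𝓞 F)ˣ, Cg p k (h • x) (ext O (au F) u) := by
  obtain ⟨h, hh0, hh⟩ := cls F
  refine ⟨h, hh0, fun k x hx => ?_⟩
  obtain ⟨y, y', hy⟩ := repr_mod b k x
  have h1 : ∀ w : HeightOneSpectrum (𝓞 F), ∀ i, ((p ^ k : ℕ) : ℤ) ∣ ordv w ((y i).toMul : F) := by
    intro w i
    obtain ⟨o, ho⟩ := hx w
    refine ord_comp b k (fun i => ordv w ((y i).toMul : F)) (o - lft (oO O w) y') ?_ i
    rw [smul_sub, ← ho, hy, map_add, map_sum, map_nsmul]
    simp only [lft_tmul, oO_apply]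
    abel
  choose u a hua using fun i => hh (p ^ k) (pow_ne_zero _ hp.out.ne_zero) (y i).toMul
    (fun w => h1 w i)
  refine ⟨∑ i, b i ⊗ₜ[ℤ] Additive.ofMul (u i), ?_⟩
  unfold Cg
  rw [mem_pw]
  refine ⟨(∑ i, b i ⊗ₜ[ℤ] Additive.ofMul (a i)) + h • y', ?_⟩
  rw [hy, map_sum, smul_add, Finset.smul_sum, smul_add, Finset.smul_sum, smul_comm (p ^ k) h y',
    add_sub_right_comm, ← Finset.sum_sub_distrib]
  congr 1
  refine Finset.sum_congr rfl fun i _ => ?_
  rw [ext_tmul, ← TensorProduct.tmul_smul, ← TensorProduct.tmul_smul, ← TensorProduct.tmul_sub]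
  congr 1
  apply Additive.toMul.injective
  rw [toMul_sub, toMul_nsmul, hua, toMul_nsmul]
  change uF (u i) * a i ^ p ^ k / uF (u i) = a i ^ p ^ k
  rw [mul_div_cancel_left]

end val

end Pool.Agent.Helper31.TH
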