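import Mathlib

/-!
# Project TH (MP_fc6b1e_nt), block II.2-II.5: the module `O ⊗ A` modulo `p^k`

`O` is a free `ℤ_p`-algebra of finite rank with basis `b`, `A` an abelian group: `O ⊗ A` modulo `p^k` is the
direct sum of copies of `A / p^k A`.
-/

set_option autoImplicit false

namespace Pool.Agent.Helper31.TH

open TensorProduct

variable {p : ℕ} [hp : Fact p.Prime] {O : Type} [CommRing O] [Algebra ℤ_[p] O] {ι : Type} [Fintype ι]
  (b : Module.Basis ι ℤ_[p] O)

/-- approximation of `p`-adic integers by natural numbers -/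
theorem approx (x : ℤ_[p]) (k : ℕ) : ∃ (n : ℕ) (y : ℤ_[p]), x = n + (p : ℤ_[p]) ^ k * y := by
  have h := PadicInt.appr_spec k x
  rw [Ideal.mem_span_singleton] at h
  obtain ⟨y, hy⟩ := h
  exact ⟨x.appr k, y, by rw [← hy]; ring⟩

section

variable {A : Type} [AddCommGroup A]

/-- every element is a combination of elements of `A`, up to `p^k` -/
theorem repr_mod (k : ℕ) (z : O ⊗[ℤ] A) :
    ∃ (a : ι → A) (y : O ⊗[ℤ] A), z = (∑ i, b i ⊗ₜ[ℤ] a i) + p ^ k • y := by
  classical
  induction z using TensorProduct.induction_on with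
  | zero => exact ⟨0, 0, by simp⟩
  | tmul o a =>
    choose n y hy using fun i => approx (b.repr o i) k
    refine ⟨fun i => n i • a, (∑ i, y i • b i) ⊗ₜ a, ?_⟩
    have h1 : o = (∑ i, (n i) • b i) + p ^ k • (∑ i, y i • b i) := by
      conv_lhs => rw [← b.sum_repr o]
      rw [Finset.smul_sum, ← Finset.sum_add_distrib]
      refine Finset.sum_congr rfl fun i _ => ?_
      rw [hy i, add_smul, mul_smul, ← Nat.cast_smul_eq_nsmul ℤ_[p] (n i),
        ← Nat.cast_smul_eq_nsmul ℤ_[p] (p ^ k)]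
      push_cast
      rfl
    conv_lhs => rw [h1]
    rw [TensorProduct.add_tmul, TensorProduct.sum_tmul]
    congr 1
    refine Finset.sum_congr rfl fun i _ => ?_
    calc (n i • b i) ⊗ₜ[ℤ] a = ((n i : ℤ) • b i) ⊗ₜ[ℤ] a := by rw [natCast_zsmul]
      _ = b i ⊗ₜ[ℤ] ((n i : ℤ) • a) := TensorProduct.smul_tmul _ _ _
      _ = _ := by rw [natCast_zsmul]
  | add z w hz hw =>
    obtain ⟨a, y, h1⟩ := hz
    obtain ⟨a', y', h2⟩ := hw
    refine ⟨fun i => a i + a' i, y + y', ?_⟩
    rw [h1, h2, smul_add]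
    simp only [TensorProduct.tmul_add, Finset.sum_add_distrib]
    abel

/-- the coefficient of `b j`, modulo `p^k` -/
noncomputable def red (j : ι) (k : ℕ) : O →+ ZMod (p ^ k) :=
  (PadicInt.toZModPow k : ℤ_[p] →+* ZMod (p ^ k)).toAddMonoidHom.comp
    ((b.coord j).toAddMonoidHom)

/-- the subgroup `p^k A` -/
def pw (A : Type) [AddCommGroup A] (p k : ℕ) : AddSubgroup A := (nsmulAddMonoidHom (α := A) (p ^ k)).range

theorem mem_pw (a : A) (k : ℕ) : a ∈ pw A p k ↔ ∃ a' : A, a = p ^ k • a' := by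
  unfold pw
  rw [AddMonoidHom.mem_range]
  constructor
  · rintro ⟨x, hx⟩
    exact ⟨x, hx.symm⟩
  · rintro ⟨x, hx⟩
    exact ⟨x, hx.symm⟩

noncomputable instance (k : ℕ) : Module (ZMod (p ^ k)) (A ⧸ pw A p k) :=
  AddCommGroup.zmodModule (by
    intro x
    induction x using QuotientAddGroup.induction_on with
    | H a =>
      rw [← QuotientAddGroup.mk_nsmul, QuotientAddGroup.eq_zero_iff, mem_pw]
      exact ⟨a, rfl⟩)

/-- the projection of `O ⊗ A` to the `j`-th component modulo `p^k` -/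
noncomputable def comp (j : ι) (k : ℕ) : O ⊗[ℤ] A →+ A ⧸ pw A p k :=
  TensorProduct.liftAddHom
    { toFun := fun o =>
        { toFun := fun a => red b j k o • (a : A ⧸ pw A p k)
          map_zero' := by simp
          map_add' := fun x y => by rw [QuotientAddGroup.mk_add, smul_add] }
      map_zero' := by ext; simp
      map_add' := fun x y => by ext a; simp [add_smul] }
    (fun r o a => by
      simp only [AddMonoidHom.coe_mk, ZeroHom.coe_mk]
      rw [QuotientAddGroup.mk_zsmul, smul_comm, map_zsmul, smul_assoc])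

theorem comp_tmul (j : ι) (k : ℕ) (o : O) (a : A) :
    comp b j k (o ⊗ₜ[ℤ] a) = red b j k o • (a : A ⧸ pw A p k) := rfl

theorem red_basis [DecidableEq ι] (i j : ι) (k : ℕ) : red b j k (b i) = if i = j then 1 else 0 := by
  unfold red
  simp only [AddMonoidHom.coe_comp, Function.comp_apply]
  change PadicInt.toZModPow k (b.coord j (b i)) = _
  rw [Module.Basis.coord_apply, Module.Basis.repr_self, Finsupp.single_apply]
  split_ifs <;> simp

/-- divisibility by `p^k` can be read off the coefficients -/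
theorem div_mod (k : ℕ) (a : ι → A) (z : O ⊗[ℤ] A)
    (h : ∑ i, b i ⊗ₜ[ℤ] a i = p ^ k • z) (j : ι) : ∃ a' : A, a j = p ^ k • a' := by
  classical
  have h1 := congrArg (comp b j k) h
  rw [map_sum, map_nsmul] at h1
  simp only [comp_tmul, red_basis] at h1
  have h2 : ∀ x : A ⧸ pw A p k, p ^ k • x = 0 := by
    intro x
    induction x using QuotientAddGroup.induction_on with
    | H a =>
      rw [← QuotientAddGroup.mk_nsmul, QuotientAddGroup.eq_zero_iff, mem_pw]
      exact ⟨a, rfl⟩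
  rw [h2] at h1
  simp only [ite_smul, one_smul, zero_smul, Finset.sum_ite_eq', Finset.mem_univ, if_true] at h1
  rw [QuotientAddGroup.eq_zero_iff, mem_pw] at h1
  exact h1

/-- the extension of a homomorphism -/
noncomputable def ext {B : Type} [AddCommGroup B] (O : Type) [CommRing O] (f : A →+ B) :
    O ⊗[ℤ] A →ₗ[O] O ⊗[ℤ] B := f.toIntLinearMap.baseChange O

theorem ext_tmul {B : Type} [AddCommGroup B] (f : A →+ B) (o : O) (a : A) :
    ext O f (o ⊗ₜ[ℤ] a) = o ⊗ₜ[ℤ] f a := rfl

/-- a saturated homomorphism reflects divisibility by `p^k` -/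
theorem ext_sat {B : Type} [AddCommGroup B] (b : Module.Basis ι ℤ_[p] O) (f : A →+ B) (k : ℕ)
    (hf : ∀ a : A, (∃ c : B, f a = p ^ k • c) → ∃ a' : A, a = p ^ k • a')
    (z : O ⊗[ℤ] A) (h : ∃ y, ext O f z = p ^ k • y) : ∃ y, z = p ^ k • y := by
  obtain ⟨a, y, hz⟩ := repr_mod b k z
  obtain ⟨y', hy'⟩ := h
  rw [hz, map_add, map_sum, map_nsmul] at hy'
  simp only [ext_tmul] at hy'
  have h1 : ∑ i, b i ⊗ₜ[ℤ] f (a i) = p ^ k • (y' - ext O f y) := by
    rw [smul_sub, ← hy']; abel
  choose a' ha' using fun j => hf (a j) (div_mod b k _ _ h1 j)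
  refine ⟨(∑ i, b i ⊗ₜ[ℤ] a' i) + y, ?_⟩
  rw [hz, smul_add, Finset.smul_sum]
  congr 1
  refine Finset.sum_congr rfl fun i _ => ?_
  conv_lhs => rw [ha' i]
  rw [TensorProduct.tmul_smul]

end

end Pool.Agent.Helper31.TH
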